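import Mathlib

/-!
Interval families over a lexicographic position type, colourings without monochromatic claws,
the potential certificate and the forcing lemma.
-/

namespace Pool.Agent.Lib.MP_da95b5_lc

/-- Positions. -/
abbrev Pos : Type := ℕ ×ₗ ℕ ×ₗ ℕ ×ₗ ℕ

/-- Constructor of positions. -/
def mk (b k a l : ℕ) : Pos := toLex (b, toLex (k, toLex (a, l)))

def pb (x : Pos) : ℕ := (ofLex x).1
def pk (x : Pos) : ℕ := (ofLex (ofLex x).2).1
def pa (x : Pos) : ℕ := (ofLex (ofLex (ofLex x).2).2).1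
def pl (x : Pos) : ℕ := (ofLex (ofLex (ofLex x).2).2).2

@[simp] theorem pb_mk (b k a l : ℕ) : pb (mk b k a l) = b := rfl
@[simp] theorem pk_mk (b k a l : ℕ) : pk (mk b k a l) = k := rfl
@[simp] theorem pa_mk (b k a l : ℕ) : pa (mk b k a l) = a := rfl
@[simp] theorem pl_mk (b k a l : ℕ) : pl (mk b k a l) = l := rfl

theorem mk_eta (x : Pos) : mk (pb x) (pk x) (pa x) (pl x) = x := rfl

theorem exists_mk (x : Pos) : ∃ b k a l, x = mk b k a l := ⟨_, _, _, _, (mk_eta x).symm⟩

theorem mk_lt_mk {b k a l b' k' a' l' : ℕ} : mk b k a l < mk b' k' a' l' ↔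
    b < b' ∨ (b = b' ∧ (k < k' ∨ (k = k' ∧ (a < a' ∨ (a = a' ∧ l < l'))))) := by
  simp [mk, Prod.Lex.toLex_lt_toLex]

theorem mk_le_mk {b k a l b' k' a' l' : ℕ} : mk b k a l ≤ mk b' k' a' l' ↔
    b < b' ∨ (b = b' ∧ (k < k' ∨ (k = k' ∧ (a < a' ∨ (a = a' ∧ l ≤ l'))))) := by
  simp [mk, Prod.Lex.toLex_le_toLex]

/-- Shift of the first coordinate. -/
def sh (n : ℕ) (x : Pos) : Pos := mk (pb x + n) (pk x) (pa x) (pl x)

@[simp] theorem sh_mk (n b k a l : ℕ) : sh n (mk b k a l) = mk (b + n) k a l := rfl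

theorem sh_le_sh {n : ℕ} {x y : Pos} : sh n x ≤ sh n y ↔ x ≤ y := by
  obtain ⟨b, k, a, l, rfl⟩ := exists_mk x
  obtain ⟨b', k', a', l', rfl⟩ := exists_mk y
  simp only [sh_mk, mk_le_mk]; omega

theorem sh_lt_sh {n : ℕ} {x y : Pos} : sh n x < sh n y ↔ x < y := by
  obtain ⟨b, k, a, l, rfl⟩ := exists_mk x
  obtain ⟨b', k', a', l', rfl⟩ := exists_mk y
  simp only [sh_mk, mk_lt_mk]; omega

theorem sh_sh (m n : ℕ) (x : Pos) : sh m (sh n x) = sh (n + m) x := by
  obtain ⟨b, k, a, l, rfl⟩ := exists_mk x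
  simp [add_assoc]

theorem sh_zero (x : Pos) : sh 0 x = x := rfl

/-- Intervals. -/
abbrev Iv : Type := Pos × Pos

/-- No interval of `S` has `v + 1` pairwise disjoint neighbours of its own colour. -/
def Good {C : Type} (v : ℕ) (S : List Iv) (col : Iv → C) : Prop :=
  ∀ c ∈ S, ∀ L : ℕ → Iv, (∀ i ≤ v, L i ∈ S ∧ col (L i) = col c) → c.1 < (L 0).2 →
    (∀ i < v, (L i).2 ≤ (L (i + 1)).1) → (L v).1 < c.2 → False

theorem Good.of_imp {C D : Type} {v : ℕ} {S : List Iv} {col : Iv → C} {col' : Iv → D}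
    (h : Good v S col) (hc : ∀ x ∈ S, ∀ y ∈ S, col' x = col' y → col x = col y) :
    Good v S col' := by
  intro c hc' L hL h1 h2 h3
  exact h c hc' L (fun i hi => ⟨(hL i hi).1, hc _ (hL i hi).1 _ hc' (hL i hi).2⟩) h1 h2 h3

/-- The four inequalities certifying an interval for potentials `h p q`. -/
def Cert (w : ℕ) (h p q : Pos → Pos) (x : Iv) : Prop :=
  sh 1 (h x.1) ≤ h x.2 ∧ p x.2 ≤ h x.2 ∧ h x.1 ≤ q x.1 ∧ q x.2 < sh w (p x.1)

theorem good_of_cert {C : Type} (w : ℕ) (S : List Iv) (h p q : C → Pos → Pos)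
    (hh : ∀ χ, Monotone (h χ)) (hp : ∀ χ, Monotone (p χ)) (hq : ∀ χ, Monotone (q χ))
    (col : Iv → C) (hc : ∀ x ∈ S, Cert w (h (col x)) (p (col x)) (q (col x)) x) :
    Good (w + 1) S col := by
  intro c hcS L hL h1 h2 h3
  have hC : ∀ i ≤ w + 1, Cert w (h (col c)) (p (col c)) (q (col c)) (L i) := by
    intro i hi
    have := hc _ (hL i hi).1
    rwa [(hL i hi).2] at this
  have key : ∀ i ≤ w, sh i (h (col c) (L 0).2) ≤ h (col c) (L (i + 1)).1 := by
    intro i
    induction i with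
    | zero => intro _; exact hh _ (h2 0 (by omega))
    | succ i ih =>
      intro hi
      have e1 := ih (by omega)
      have e2 := (hC (i + 1) (by omega)).1
      have e3 := hh (col c) (h2 (i + 1) (by omega))
      rw [← sh_sh]
      exact (sh_le_sh.2 e1).trans (e2.trans e3)
  have a1 : p (col c) c.1 ≤ h (col c) (L 0).2 := (hp _ h1.le).trans (hC 0 (by omega)).2.1
  have a2 : h (col c) (L (w + 1)).1 ≤ q (col c) c.2 :=
    (hC (w + 1) le_rfl).2.2.1.trans (hq _ h3.le)
  have a3 := (hc c hcS).2.2.2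
  exact absurd ((sh_le_sh.2 a1).trans ((key w le_rfl).trans a2)) (not_le.2 a3)

/-- Forcing: a centre, a first leaf and a chain of `w` further leaves of one colour forbid that
colour on every interval starting between the end of the chain and the end of the centre. -/
theorem Good.force {C : Type} {w : ℕ} {S : List Iv} {col : Iv → C} (h : Good (w + 1) S col)
    {c J I : Iv} (pos : ℕ → Pos) (pos' : ℕ → Pos) (hc : c ∈ S) (hJ : J ∈ S) (hI : I ∈ S)
    (hJc : col J = col c)
    (hl : ∀ i < w, (pos i, pos' (i + 1)) ∈ S ∧ col (pos i, pos' (i + 1)) = col c)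
    (hpp : ∀ i, 0 < i → i < w → pos' i ≤ pos i)
    (h1 : c.1 < J.2) (h2 : J.2 ≤ pos 0) (h3 : pos' w ≤ I.1) (h4 : I.1 < c.2) (hw : 0 < w) :
    col I ≠ col c := by
  intro hIc
  refine h c hc (fun i => if i = 0 then J else if i ≤ w then (pos (i - 1), pos' i) else I)
    ?_ (by simpa using h1) ?_ (by simpa using h4)
  · intro i hi
    by_cases h0 : i = 0
    · simp [h0, hJ, hJc]
    · by_cases h1 : i ≤ w
      · have := hl (i - 1) (by omega)
        rw [show i - 1 + 1 = i by omega] at this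
        simpa [h0, h1] using this
      · simp [h0, h1, hI, hIc]
  · intro i hi
    by_cases h0 : i = 0
    · subst h0
      simpa [show 1 ≤ w from hw] using h2
    · by_cases h1 : i + 1 ≤ w
      · simpa [h0, h1, show i ≤ w by omega] using hpp i (by omega) (by omega)
      · have : i = w := by omega
        subst this
        simpa [h0] using h3

end Pool.Agent.Lib.MP_da95b5_lc
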