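import Pool.Agent.Lib.MP_da95b5_lc.Basic

/-!
The block gadget: a long interval over `v` copies of a tree of intervals that needs all colours.
-/

namespace Pool.Agent.Lib.MP_da95b5_lc

def Colourable (k v : ℕ) (S : List Iv) : Prop := ∃ col : Iv → Fin k, Good v S col

def NE (S : List Iv) : Prop := ∀ x ∈ S, x.1 < x.2

theorem good_of_rel {C : Type} [Nonempty C] (v : ℕ) (S : List Iv) (Rel : Iv → C → Prop)
    (hex : ∀ x ∈ S, ∃ χ, Rel x χ)
    (hno : ∀ χ, ∀ c ∈ S, Rel c χ → ∀ L : ℕ → Iv, (∀ i ≤ v, L i ∈ S ∧ Rel (L i) χ) →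
      c.1 < (L 0).2 → (∀ i < v, (L i).2 ≤ (L (i + 1)).1) → (L v).1 < c.2 → False) :
    ∃ col : Iv → C, Good v S col ∧ ∀ x ∈ S, Rel x (col x) := by
  classical
  refine ⟨fun x => Classical.epsilon (Rel x), ?_, fun x hx => Classical.epsilon_spec (hex x hx)⟩
  intro c hc L hL h1 h2 h3
  refine hno _ c hc (Classical.epsilon_spec (hex c hc)) L (fun i hi => ⟨(hL i hi).1, ?_⟩) h1 h2 h3
  have := Classical.epsilon_spec (hex _ (hL i hi).1)
  have e := (hL i hi).2
  simp only at e
  rwa [e] at this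

theorem chain_le {v : ℕ} {L : ℕ → Iv} (hne : ∀ i ≤ v, (L i).1 < (L i).2)
    (h2 : ∀ i < v, (L i).2 ≤ (L (i + 1)).1) {i j : ℕ} (hij : i < j) (hj : j ≤ v) :
    (L i).2 ≤ (L j).1 := by
  induction j with
  | zero => omega
  | succ j ih =>
    rcases Nat.lt_succ_iff_lt_or_eq.1 hij with h | h
    · exact (ih h (by omega)).trans ((hne j (by omega)).le.trans (h2 j (by omega)))
    · subst h; exact h2 i (by omega)

def shIv (x : Iv) : Iv := (sh 1 x.1, sh 1 x.2)

def blockIv (v j a : ℕ) : Iv := (mk 0 0 0 (a * (v + 1) ^ j), mk 0 0 0 ((a + 1) * (v + 1) ^ j))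

def block (v K : ℕ) : List Iv :=
  (List.range (K + 1)).flatMap fun j => (List.range (v * (v + 1) ^ (K - j))).map (blockIv v j)

def bigU (θ : Pos) : Iv := (mk 0 0 0 0, sh 1 θ)

def ext (v K : ℕ) (θ : Pos) (S : List Iv) : List Iv := bigU θ :: block v K ++ S.map shIv

theorem mem_block {v K : ℕ} {x : Iv} :
    x ∈ block v K ↔ ∃ j ≤ K, ∃ a < v * (v + 1) ^ (K - j), blockIv v j a = x := by
  simp [block]

theorem mem_ext {v K : ℕ} {θ : Pos} {S : List Iv} {x : Iv} :
    x ∈ ext v K θ S ↔ x = bigU θ ∨ x ∈ block v K ∨ ∃ y ∈ S, shIv y = x := by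
  simp [ext]

theorem zero_lt_sh (a : ℕ) (x : Pos) : mk 0 0 0 a < sh 1 x := by
  obtain ⟨b, k, a, l, rfl⟩ := exists_mk x
  simp [mk_lt_mk]

theorem blockIv_ne (v j a : ℕ) : (blockIv v j a).1 < (blockIv v j a).2 := by
  have : 0 < (v + 1) ^ j := by positivity
  refine mk_lt_mk.2 (Or.inr ⟨rfl, Or.inr ⟨rfl, Or.inr ⟨rfl, ?_⟩⟩⟩)
  nlinarith

theorem ext_ne {v K : ℕ} {θ : Pos} {S : List Iv} (hS : NE S) : NE (ext v K θ S) := by
  intro x hx
  rcases mem_ext.1 hx with rfl | hx | ⟨y, hy, rfl⟩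
  · exact zero_lt_sh _ _
  · obtain ⟨j, -, a, -, rfl⟩ := mem_block.1 hx
    exact blockIv_ne _ _ _
  · exact sh_lt_sh.2 (hS y hy)

theorem mk0_le {a a' : ℕ} : mk 0 0 0 a ≤ mk 0 0 0 a' ↔ a ≤ a' := by simp [mk_le_mk]
theorem mk0_lt {a a' : ℕ} : mk 0 0 0 a < mk 0 0 0 a' ↔ a < a' := by simp [mk_lt_mk]

theorem tree_colours {C : Type} {v K : ℕ} {S : List Iv} {col : Iv → C} (h : Good v S col)
    (hS : ∀ x ∈ block v K, x ∈ S) : ∀ j ≤ K, ∀ a < v * (v + 1) ^ (K - j), ∃ T : Finset C,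
      j + 1 ≤ T.card ∧ ∀ χ ∈ T, ∃ x ∈ S, col x = χ ∧ (blockIv v j a).1 ≤ x.1 ∧
        x.2 ≤ (blockIv v j a).2 ∧ x.1 < x.2 := by
  classical
  intro j
  induction j with
  | zero =>
    intro hj a ha
    refine ⟨{col (blockIv v 0 a)}, by simp, ?_⟩
    intro χ hχ
    rw [Finset.mem_singleton] at hχ
    exact ⟨_, hS _ (mem_block.2 ⟨0, hj, a, ha, rfl⟩), hχ.symm, le_rfl, le_rfl, blockIv_ne _ _ _⟩
  | succ j ih =>
    intro hj a ha
    have hc : blockIv v (j + 1) a ∈ S := hS _ (mem_block.2 ⟨j + 1, hj, a, ha, rfl⟩)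
    have hlt : ∀ i ≤ v, a * (v + 1) + i < v * (v + 1) ^ (K - j) := by
      intro i hi
      rw [show K - j = K - (j + 1) + 1 by omega, pow_succ, ← mul_assoc]
      have : (a + 1) * (v + 1) ≤ v * (v + 1) ^ (K - (j + 1)) * (v + 1) :=
        Nat.mul_le_mul_right _ ha
      nlinarith
    choose! T hT1 hT2 using fun i (hi : i ≤ v) => ih (by omega) _ (hlt i hi)
    have hsub : ∀ i ≤ v, (blockIv v (j + 1) a).1 ≤ (blockIv v j (a * (v + 1) + i)).1 ∧
        (blockIv v j (a * (v + 1) + i)).2 ≤ (blockIv v (j + 1) a).2 := by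
      intro i hi
      simp only [blockIv, mk0_le, pow_succ]
      constructor
      · rw [mul_comm ((v + 1) ^ j), ← mul_assoc]
        exact Nat.mul_le_mul_right _ (by omega)
      · rw [mul_comm ((v + 1) ^ j), ← mul_assoc]
        exact Nat.mul_le_mul_right _ (by nlinarith)
    by_cases hall : ∀ i ≤ v, col (blockIv v (j + 1) a) ∈ T i
    · exfalso
      choose! x hx1 hx2 hx3 hx4 hx5 using fun i (hi : i ≤ v) => hT2 i hi _ (hall i hi)
      refine h _ hc x (fun i hi => ⟨hx1 i hi, hx2 i hi⟩) ?_ ?_ ?_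
      · exact ((hsub 0 (by omega)).1.trans (hx3 0 (by omega))).trans_lt (hx5 0 (by omega))
      · intro i hi
        exact (hx4 i (by omega)).trans (hx3 (i + 1) (by omega))
      · exact (hx5 v le_rfl).trans_le ((hx4 v le_rfl).trans (hsub v le_rfl).2)
    · push Not at hall
      obtain ⟨i, hi, hχ⟩ := hall
      refine ⟨insert (col (blockIv v (j + 1) a)) (T i), ?_, ?_⟩
      · rw [Finset.card_insert_of_notMem hχ]
        have := hT1 i hi
        omega
      · intro χ hχ'
        rcases Finset.mem_insert.1 hχ' with rfl | hχ'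
        · exact ⟨_, hc, rfl, le_rfl, le_rfl, blockIv_ne _ _ _⟩
        · obtain ⟨x, hx1, hx2, hx3, hx4, hx5⟩ := hT2 i hi χ hχ'
          exact ⟨x, hx1, hx2, (hsub i hi).1.trans hx3, hx4.trans (hsub i hi).2, hx5⟩

theorem ext_sound {v K : ℕ} {θ : Pos} {S : List Iv} (hv : 0 < v)
    (h : Colourable (K + 1) v (ext v K θ S)) :
    ∃ col : Iv → Fin (K + 1), Good v S col ∧ ∀ x ∈ S, x.1 < θ → col x ≠ Fin.last K := by
  classical
  obtain ⟨col, h⟩ := h
  have hU : bigU θ ∈ ext v K θ S := mem_ext.2 (Or.inl rfl)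
  have hsh : ∀ y ∈ S, shIv y ∈ ext v K θ S := fun y hy => mem_ext.2 (Or.inr (Or.inr ⟨y, hy, rfl⟩))
  have hT := tree_colours h (fun x hx => mem_ext.2 (Or.inr (Or.inl hx))) K le_rfl
  have hx : ∀ a < v, ∃ x ∈ ext v K θ S, col x = col (bigU θ) ∧ (blockIv v K a).1 ≤ x.1 ∧
        x.2 ≤ (blockIv v K a).2 ∧ x.1 < x.2 := by
    intro a ha
    obtain ⟨T, hT1, hT2⟩ := hT a (by simpa using ha)
    have : T = Finset.univ := Finset.eq_univ_of_card _ (le_antisymm (Finset.card_le_univ _)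
      (by simpa using hT1))
    exact hT2 _ (this ▸ Finset.mem_univ _)
  choose! x hx1 hx2 hx3 hx4 hx5 using hx
  refine ⟨fun y => Equiv.swap (col (bigU θ)) (Fin.last K) (col (shIv y)), ?_, ?_⟩
  · intro c hc L hL h1 h2 h3
    refine h _ (hsh c hc) (fun i => shIv (L i)) (fun i hi => ⟨hsh _ (hL i hi).1, ?_⟩)
      (sh_lt_sh.2 h1) (fun i hi => sh_le_sh.2 (h2 i hi)) (sh_lt_sh.2 h3)
    exact (Equiv.injective _) (hL i hi).2
  · intro y hy hyθ hcol
    have hcol' : col (shIv y) = col (bigU θ) := by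
      apply (Equiv.swap (col (bigU θ)) (Fin.last K)).injective
      rw [Equiv.swap_apply_left]; exact hcol
    refine h _ hU (fun i => if i < v then x i else shIv y) ?_ ?_ ?_ ?_
    · intro i hi
      by_cases h' : i < v
      · simp [h', hx1 i h', hx2 i h']
      · simp [h', hsh y hy, hcol']
    · simp only [hv, if_true]
      refine lt_of_le_of_lt ?_ (hx5 0 hv)
      refine le_trans ?_ (hx3 0 hv)
      simp [bigU, blockIv]
    · intro i hi
      by_cases h' : i + 1 < v
      · simp only [hi, h', if_true]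
        exact (hx4 i hi).trans (hx3 (i + 1) h')
      · simp only [hi, h', if_true, if_false]
        exact (hx4 i hi).trans (zero_lt_sh _ _).le
    · simp only [lt_irrefl, if_false]
      exact sh_lt_sh.2 hyθ

theorem ext_complete {v K : ℕ} {θ : Pos} {S : List Iv} (hv : 0 < v) (hS : NE S)
    (col : Iv → Fin (K + 1)) (h : Good v S col) (hθ : ∀ x ∈ S, x.1 < θ → col x ≠ Fin.last K) :
    Colourable (K + 1) v (ext v K θ S) := by
  classical
  let Rel : Iv → Fin (K + 1) → Prop := fun x χ => (x = bigU θ ∧ χ = Fin.last K) ∨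
    (∃ a < v * (v + 1) ^ (K - χ), blockIv v χ a = x) ∨ ∃ y ∈ S, shIv y = x ∧ col y = χ
  refine (good_of_rel v (ext v K θ S) Rel ?_ ?_).imp fun col' h' => h'.1
  · intro x hx
    rcases mem_ext.1 hx with rfl | hx | ⟨y, hy, rfl⟩
    · exact ⟨_, Or.inl ⟨rfl, rfl⟩⟩
    · obtain ⟨j, hj, a, ha, rfl⟩ := mem_block.1 hx
      exact ⟨⟨j, by omega⟩, Or.inr (Or.inl ⟨a, ha, rfl⟩)⟩
    · exact ⟨_, Or.inr (Or.inr ⟨y, hy, rfl, rfl⟩)⟩
  · intro χ c hc hRc L hL h1 h2 h3
    have hne : ∀ i ≤ v, (L i).1 < (L i).2 := fun i hi => ext_ne hS _ (hL i hi).1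
    have hch : ∀ i j, i < j → j ≤ v → (L i).2 ≤ (L j).1 := fun i j hij hj =>
      chain_le hne h2 hij hj
    have hpos : 0 < (v + 1) ^ (χ : ℕ) := by positivity
    have hz : ∀ x : Pos, mk 0 0 0 0 ≤ x := by
      intro x
      obtain ⟨b, k, a, l, rfl⟩ := exists_mk x
      simp only [mk_le_mk]; omega
    have hnU : ∀ j, 0 < j → j ≤ v → L j ≠ bigU θ := by
      intro j hj hj' e
      have := h1.trans_le (hch 0 j hj hj')
      rw [e] at this
      exact absurd (hz _) (not_le.2 this)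
    rcases hRc with ⟨rfl, rfl⟩ | ⟨a, ha, rfl⟩ | ⟨y, hy, rfl, rfl⟩
    · have hv' : ∃ a < v, blockIv v K a = L v := by
        rcases (hL v le_rfl).2 with ⟨e, -⟩ | ⟨a, ha, e⟩ | ⟨y, hy, e, e'⟩
        · exact absurd e (hnU v hv le_rfl)
        · exact ⟨a, by simpa using ha, by simpa using e⟩
        · rw [← e] at h3
          exact absurd e' (hθ y hy (sh_lt_sh.1 h3))
      have hall : ∀ i ≤ v, ∃ a < v, blockIv v K a = L i := by
        intro i hi
        rcases hi.lt_or_eq with hi' | rfl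
        · obtain ⟨a', -, e'⟩ := hv'
          have := hch i v hi' le_rfl
          rw [← e'] at this
          rcases (hL i hi).2 with ⟨e, -⟩ | ⟨a, ha, e⟩ | ⟨y, hy, e, -⟩
          · rw [e] at this
            exact absurd this (not_le.2 (zero_lt_sh _ _))
          · exact ⟨a, by simpa using ha, by simpa using e⟩
          · rw [← e] at this
            exact absurd this (not_le.2 (zero_lt_sh _ _))
        · exact hv'
      choose! a ha1 ha2 using hall
      have : ∀ i ≤ v, i ≤ a i := by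
        intro i
        induction i with
        | zero => intro _; omega
        | succ i ih =>
          intro hi
          have e := h2 i (by omega)
          rw [← ha2 i (by omega), ← ha2 (i + 1) hi] at e
          simp only [blockIv, mk0_le] at e
          have := Nat.le_of_mul_le_mul_right e (by positivity)
          have := ih (by omega)
          omega
      have := this v le_rfl
      have := ha1 v le_rfl
      omega
    · have e0 := hch 0 v hv le_rfl
      have hv' : ∃ a, blockIv v χ a = L v := by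
        rcases (hL v le_rfl).2 with ⟨e, -⟩ | ⟨a, ha, e⟩ | ⟨y, hy, e, e'⟩
        · exact absurd e (hnU v hv le_rfl)
        · exact ⟨a, e⟩
        · rw [← e] at h3
          exact absurd h3 (not_lt.2 (zero_lt_sh _ _).le)
      obtain ⟨a', e'⟩ := hv'
      rw [← e'] at e0 h3
      rcases (hL 0 (by omega)).2 with ⟨e, -⟩ | ⟨a0, -, e⟩ | ⟨y, hy, e, -⟩
      · rw [e] at e0
        exact absurd e0 (not_le.2 (zero_lt_sh _ _))
      · rw [← e] at e0 h1
        simp only [blockIv, mk0_le, mk0_lt] at e0 h1 h3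
        have := Nat.le_of_mul_le_mul_right e0 hpos
        have := Nat.lt_of_mul_lt_mul_right h1
        have := Nat.lt_of_mul_lt_mul_right h3
        omega
      · rw [← e] at e0
        exact absurd e0 (not_le.2 (zero_lt_sh _ _))
    · have hall : ∀ i ≤ v, ∃ z ∈ S, shIv z = L i ∧ col z = col y := by
        intro i hi
        have hlt : (shIv y).1 < (L i).2 := by
          rcases Nat.eq_zero_or_pos i with rfl | hi0
          · exact h1
          · exact h1.trans_le ((hch 0 i hi0 hi).trans (hne i hi).le)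
        rcases (hL i hi).2 with ⟨e, e'⟩ | ⟨a0, -, e⟩ | h
        · rw [e] at hlt
          exact absurd e' (hθ y hy (sh_lt_sh.1 hlt))
        · rw [← e] at hlt
          exact absurd hlt (not_lt.2 (zero_lt_sh _ _).le)
        · exact h
      choose! z hz1 hz2 hz3 using hall
      refine h y hy z (fun i hi => ⟨hz1 i hi, hz3 i hi⟩) ?_ ?_ ?_
      · rw [← hz2 0 (by omega)] at h1; exact sh_lt_sh.1 h1
      · intro i hi
        have := h2 i hi
        rw [← hz2 i (by omega), ← hz2 (i + 1) (by omega)] at this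
        exact sh_le_sh.1 this
      · rw [← hz2 v le_rfl] at h3; exact sh_lt_sh.1 h3

theorem ext_step {v K B : ℕ} {S : List Iv} (hv : 0 < v) (hK : 0 < K) (hS : NE S)
    (hB : ∀ x ∈ S, x.1 < mk B 0 0 0) :
    Colourable (K + 1) v (ext v K (mk B 0 0 0) S) ↔ Colourable K v S := by
  constructor
  · intro h
    obtain ⟨col, h1, h2⟩ := ext_sound hv h
    refine ⟨fun x => if h : col x ≠ Fin.last K then (col x).castPred h else ⟨0, hK⟩,
      h1.of_imp ?_⟩
    intro x hx y hy e
    simp only [h2 x hx (hB x hx), h2 y hy (hB y hy), ne_eq, not_false_eq_true, dite_true] at e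
    simpa using e
  · rintro ⟨col, h⟩
    exact ext_complete hv hS (fun x => (col x).castSucc)
      (h.of_imp fun x _ y _ e => Fin.castSucc_injective _ e)
      (fun x _ _ => (Fin.castSucc_lt_last _).ne)

theorem ext_bound {v K B : ℕ} {θ : Pos} {S : List Iv} (hB : ∀ x ∈ S, x.1 < mk B 0 0 0) :
    ∀ x ∈ ext v K θ S, x.1 < mk (B + 1) 0 0 0 := by
  intro x hx
  rcases mem_ext.1 hx with rfl | hx | ⟨y, hy, rfl⟩
  · simp [bigU, mk_lt_mk]
  · obtain ⟨j, -, a, -, rfl⟩ := mem_block.1 hx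
    simp [blockIv, mk_lt_mk]
  · exact (sh_lt_sh (n := 1)).2 (hB y hy)

end Pool.Agent.Lib.MP_da95b5_lc
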