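import Pool.Agent.Lib.MP_da95b5_lc.Basic

/-!
The potentials used for the completeness of the reduction and their monotonicity.
-/

namespace Pool.Agent.Lib.MP_da95b5_lc

/-- Packed local tables. -/
def ztList : List ℕ := [
  0x249249249240249249249240000000000000000000000000000000000000000000000000000000000000000000000000492492492449492492492449000000000000000000000000000000000000000000000000000000000000000000000000249249249248249249249248,
  0x492492248000249249248000000000000000000000000000000000000000000000000000000000000000000000000000492492488000249249249249000000000000000000000000000000000000000000000000000000000000000000000000492492449248249249249248,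
  0x249249249248000000000000000000000000000000000000000000000000000000000000000000000000000000000000249249249248000000000000000000000000000000000000000000000000000000000000000000000000000000000000492492492449492492492449,
  0x249249249000000000000000000000000000000000000000000000000000000000000000000000000000000000000000249249249000249249249248000000000000000000000000000000000000000000000000000000000000000000000000249249249240000000000000,
  0x4924924900002492492492400000000000000000000000000000000000000000000000000000000000000000000000004924924924926db6db6db649000000000000000000000000000000000000000000000000000000000000000000000000492492492000249249249248,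
  0x249249249240249249249240000000000000000000000000000000000000000000000000000000000000000000000000249249249249249249249249000000000000000000000000000000000000000000000000000000000000000000000000249249249248249249249248,
  0x249249249248492492492000000000000000000000000000000000000000000000000000000000000000000000000000000000000000000000000000000000000000000000000000000000000000000000000000000000000000000000000000492492492449492492492449,
  0x2492492492406db6db6db6c02492492492404924924924802492492492402492492492402492492492400000000000002492492492496db6db6db6db2492492492494924924924922492492492492492492492492492492492490000000000002492492492486db6db6db6d8249249249248492492492490249249249248249249249248249249249248,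
  0x6c00000000006d24920000006c00000000006c92492480006c00000000006c00000000006c00000000000000000000004924922480004924924924904924920000002492492492484892492480004924924924904800000000000000000000006db6c00000006db6d24924006db6c00000006db6c92492006db6c00000006db6d24924006db6c0000000,
  0x2492492492482492492492482492492492486db6db6d80006db6db6d92486db6db6d92486db6db6d92480000000000000000000000000000000000000000000000000000000000000000000000000000000000000000000000000000000000006db6db6db2496db6db6db2496db6db6db2496db6db6db2496db6db6db2496db6db6db2496db6db6db249,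
  0x249249249240249249249240000000000000000000000000000000000000000000000000000000000000000000000000249249249249249249249249000000000000000000000000000000000000000000000000000000000000000000000000249249249248249249249248,
  0x249249249249249249249240000000000000000000000000000000000000000000000000000000000000000000000000249249249000249249249000,
  0x4924924000002492492490000000000000000000000000000000000000000000000000000000000000000000000000004924924910006db6db6d9248000000000000000000000000000000000000000000000000000000000000000000000000492492480000249249249240,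
  0x249249249248492492492000000000000000000000000000000000000000000000000000000000000000000000000000000000000000000000000000000000000000000000000000000000000000000000000000000000000000000000000000492492492449492492492449,
  0x9248924900009248db2492409248db0000009248492492409248924900009248492492409248000000000000000000009249224924929249236db6499249236db69292492490924992492491249292492491b64992492491b69200000000000092491249200092491b64924892491b600000924909249248924912492000924909249248924900000000,
  0x6db6492492486db6924900006db6924912486db6db0000006db6db2492486db6db4900006db6db4912480000000000002492492492482492492480002492492492482492490000002492492492482492492480002492492492480000000000009236db6922499236db6922499236db6922499236db6922499236db6922499236db6922499236db692249,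
  0x6db6db6d80006db6db6d80006db6db6d80000000000000000000000000000000000000000000000000000000000000002492492480002492492480002492492480009249249249200000000000000000000000000000000000000000000000006db6db6db6406db6db6db6926db6db6db6929249249248006db6db6db6406db6db6db6926db6db6db692,
  0x6db6db6db6d86db6db6db6d86db6db6db6d86db6db6db6d86db6db6db6d86db6db6db6d86db6db6db6d80000000000000000000000000000000000000000000000000000000000000000000000000000000000000000000000000000000000006db6db6db6db6db6db6db6db6db6db6db6db6db6db6db6db6db6db6db6db6db6db6db6db6db6db6db6db]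

def zi (X : Bool) (s k : ℕ) : ℕ :=
  if X then (if s ≤ 6 then s + 7 else s + 5)
  else (if s ≤ 7 then s - 3 else if s = 8 ∧ k = 4 then 5 else s - 2)

def rd (z r l : ℕ) : ℕ := (z >>> (48 * r + 3 * l)) % 8

def sub (X : Bool) (f s k code l : ℕ) : ℕ :=
  rd (ztList.getD (zi X s k) 0) (8 * f + min code 7) (min l 15)

theorem rd_step : ∀ z ∈ ztList, ∀ r < 24, ∀ l < 15, rd z r l ≤ rd z r (l + 1) := by
  decide +kernel

theorem sub_mono (X : Bool) {f : ℕ} (hf : f < 3) (s k code : ℕ) {l l' : ℕ} (h : l ≤ l') :
    sub X f s k code l ≤ sub X f s k code l' := by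
  unfold sub
  generalize hz : ztList.getD (zi X s k) 0 = z
  have hz' : z ∈ ztList ∨ z = 0 := by
    rw [← hz, List.getD_eq_getElem?_getD]
    cases h : ztList[zi X s k]? with
    | none => simp
    | some y => exact Or.inl (List.mem_of_getElem? h)
  rcases hz' with hz' | rfl
  · have key : ∀ n ≤ 15, ∀ m ≤ n, rd z (8 * f + min code 7) m ≤ rd z (8 * f + min code 7) n := by
      intro n
      induction n with
      | zero => intro _ m hm; rw [Nat.le_zero.1 hm]
      | succ n ih =>
        intro hn m hm
        rcases hm.lt_or_eq with hm | rfl
        · exact (ih (by omega) m (by omega)).trans (rd_step z hz' _ (by omega) n (by omega))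
        · exact le_rfl
    exact key _ (by omega) _ (by omega)
  · simp [rd]

/-- Mode (step shift, family, kind) of a zone for the first colour. `f = 0, 1, 2` stands for the
potentials `h, p, q`. -/
def mdR (f s : ℕ) (real : Bool) (k : ℕ) : ℕ × ℕ × ℕ :=
  if 10 ≤ k then (1, 0, 0)
  else if f = 2 ∧ k ≤ 6 then (0, 0, 2)
  else if real ∧ (s = 4 ∨ s = 5 ∨ s = 6 ∨ s = 9 ∨ s = 10 ∨ s = 11) then
    (if k < 7 then (0, 1, 0) else if k = 7 then (0, 2, 1) else if f = 1 then (1, 0, 0)
      else (0, 3, 0))
  else if (real ∧ (s = 3 ∨ s = 12)) ∨ (¬ real ∧ (s = 3 ∨ s = 5 ∨ s = 9 ∨ s = 11)) then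
    (if k < 9 then (0, 1, 0) else (0, 2, 1))
  else if f = 1 then (if k ≤ 6 then (0, 1, 0) else (1, 0, 0))
  else if f = 0 ∧ ((real ∧ (s = 7 ∨ s = 13)) ∨ (¬ real ∧ s = 10)) then (0, 3, 0)
  else (0, 1, 0)

def topB (f : ℕ) : ℕ × ℕ × ℕ := if f = 1 then (1, 0, 0) else (0, 6, 0)

/-- Mode of a zone for the second colour. -/
def mdB (f s : ℕ) (real : Bool) (k : ℕ) : ℕ × ℕ × ℕ :=
  if 8 ≤ k then
    (if f ≠ 2 then (1, 0, 0) else if real ∧ s = 12 ∧ k ≤ 9 then (0, 2, 0)
      else if real ∧ s = 9 ∧ k = 8 then (0, 4, 0) else (0, 6, 0))
  else if real ∧ s = 3 then (if k = 3 then (0, 5, 1) else topB f)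
  else if real ∧ (s = 4 ∨ s = 5 ∨ s = 6 ∨ s = 10 ∨ s = 11) then
    (if k < 7 then (0, 2, 0) else if s < 7 then (0, 5, 1) else (0, 3, 1))
  else if real ∧ s = 7 then
    (if k < 5 then (if f = 1 then (0, 5, 0) else (0, 2, 0)) else if k = 5 then (0, 5, 1)
      else topB f)
  else if real ∧ s = 8 then
    (if k = 3 then (if f = 1 then (0, 4, 0) else (0, 2, 0)) else if k = 4 then (0, 4, 1)
      else if k < 7 then (0, 5, 0) else (0, 5, 1))
  else if real ∧ s = 9 then (if k = 3 then (0, 3, 1) else if f = 2 then (0, 4, 0) else (0, 6, 0))
  else if ¬ real ∧ (s = 3 ∨ s = 4) then (if k = 3 then (0, 5, 1) else topB f)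
  else if ¬ real ∧ (s = 9 ∨ s = 10) then (if k = 3 then (0, 3, 1) else topB f)
  else if ¬ real ∧ s = 7 then (if k < 5 then (0, 2, 0) else if k = 5 then (0, 5, 1) else topB f)
  else if ¬ real ∧ s = 8 then (if k < 4 then (0, 2, 0) else if k = 4 then (0, 4, 1) else topB f)
  else if f = 1 then (1, 0, 0) else (0, 2, 0)

def md (X : Bool) (f s : ℕ) (real : Bool) (k : ℕ) : ℕ × ℕ × ℕ :=
  if X then mdR f s real k else mdB f s real k

/-- First generic zone. -/
def k0 (X : Bool) : ℕ := if X then 1 else 3

set_option synthInstance.maxSize 4000 in
theorem md_step : ∀ X : Bool, ∀ f < 3, ∀ s < 14, ∀ real : Bool, ∀ k' < 11, ∀ k < k', k0 X ≤ k →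
    ((md X f s real k).1 < (md X f s real k').1 ∨ ((md X f s real k).1 = (md X f s real k').1 ∧
      ((md X f s real k).2.1 < (md X f s real k').2.1 ∨
        ((md X f s real k).2.1 = (md X f s real k').2.1 ∧ ((md X f s real k).2.2 = 0 ∨
          ((md X f s real k).2.2 = 2 ∧ (md X f s real k').2.2 = 2)))))) := by
  decide +kernel

set_option synthInstance.maxSize 4000 in
theorem md_bd : ∀ X : Bool, ∀ f < 3, ∀ s < 14, ∀ real : Bool, ∀ k < 11, k0 X ≤ k →
    ((md X f s real k).1 = 0 ∨ md X f s real k = (1, 0, 0)) ∧ (md X f s real k).2.2 ≤ 2 ∧
    (k = 10 → (md X f s real k).2.2 = 0) ∧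
    (X = true → (md X f s real k).1 = 1 ∨ 1 ≤ (md X f s real k).2.1 ∨
      (f = 2 ∧ (md X f s real k).2.2 = 2)) ∧
    (X = false → ((md X f s real k).1 = 1 ∨ 2 ≤ (md X f s real k).2.1) ∧
      (f = 2 → (md X f s real k).1 = 0 ∧
        ((md X f s real k).2.1 < 6 ∨ md X f s real k = (0, 6, 0)))) := by
  decide +kernel

def MM (w : ℕ) : ℕ := 14 * w + 2

/-- Value attached to a mode. -/
def val (b : ℕ) (m : ℕ × ℕ × ℕ) (a u sb : ℕ) : Pos :=
  mk (b + m.1) m.2.1 (if m.2.2 = 0 then 0 else if m.2.2 = 1 then a else u)
    (if m.2.2 = 1 then sb else 0)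

def gen (w : ℕ) (τ : ℕ → ℕ → ℕ) (X : Bool) (f b k a l : ℕ) : Pos :=
  val b (md X f (min (b / w) 13) (decide (b % w = 0)) (min k 10)) a (MM w - b + w)
    (if b % w = 0 then sub X f (min (b / w) 13) k (τ (min (b / w) 13) a) l else l)

def keyR (w f x : ℕ) : ℕ := if f = 0 then x else if f = 1 then max 1 x else min w x

def potR (w : ℕ) (τ : ℕ → ℕ → ℕ) (f b k a l : ℕ) : Pos :=
  if k = 0 then mk b 0 (MM w - b + keyR w f (a + min l 1)) 0 else gen w τ true f b k a l

def stepB (w b a : ℕ) : ℕ := if b = w + 1 then min a b else b

def potB (w : ℕ) (τ : ℕ → ℕ → ℕ) (f b k a l : ℕ) : Pos :=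
  if b < w + 1 then mk 0 0 0 0
  else if k ≤ 1 then
    (if b = w + 1 then mk 0 0 0 0 else if f = 2 then mk (b - 1) 6 0 0 else mk b 0 0 0)
  else if k = 2 then
    mk (stepB w b a) (if f = 1 ∧ (stepB w b a < a ∨ (stepB w b a = a ∧ 2 ≤ l)) then 1 else 0) 0 0
  else gen w τ false f b k a l

def pot (w : ℕ) (τ : ℕ → ℕ → ℕ) (f : ℕ) (X : Bool) (x : Pos) : Pos :=
  if X then potR w τ f (pb x) (pk x) (pa x) (pl x) else potB w τ f (pb x) (pk x) (pa x) (pl x)

theorem gen_mono (w : ℕ) (τ : ℕ → ℕ → ℕ) (X : Bool) {f : ℕ} (hf : f < 3) {b k a l k' a' l' : ℕ}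
    (hk : k0 X ≤ k) (h : k < k' ∨ (k = k' ∧ (a < a' ∨ (a = a' ∧ l ≤ l')))) :
    gen w τ X f b k a l ≤ gen w τ X f b k' a' l' := by
  have hk0 : k0 X ≤ 3 := by unfold k0; split_ifs <;> omega
  have hb := md_bd X f hf (min (b / w) 13) (by omega) (decide (b % w = 0)) (min k 10) (by omega)
    (by omega)
  unfold gen val
  rcases h with h | ⟨rfl, h | ⟨rfl, h⟩⟩
  · by_cases h10 : 10 ≤ k
    · rw [show min k' 10 = min k 10 by omega]
      have := hb.2.2.1 (by omega)
      simp [this]
    · have := md_step X f hf (min (b / w) 13) (by omega) (decide (b % w = 0)) (min k' 10)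
        (by omega) (min k 10) (by omega) (by omega)
      rw [mk_le_mk]
      split_ifs <;> omega
  · rw [mk_le_mk]
    split_ifs <;> omega
  · have := sub_mono X hf (min (b / w) 13) k (τ (min (b / w) 13) a) h
    rw [mk_le_mk]
    split_ifs <;> omega

theorem gen_bd (w : ℕ) (τ : ℕ → ℕ → ℕ) (X : Bool) {f : ℕ} (hf : f < 3) {b k a l : ℕ}
    (hk : k0 X ≤ k) : mk b 0 0 0 ≤ gen w τ X f b k a l ∧ gen w τ X f b k a l ≤ mk (b + 1) 0 0 0 ∧
    (X = true → f ≠ 2 → mk b 1 0 0 ≤ gen w τ X f b k a l) ∧
    (X = true → mk b 0 (MM w - b + w) 0 ≤ gen w τ X f b k a l) ∧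
    (X = false → mk b 2 0 0 ≤ gen w τ X f b k a l) ∧
    (X = false → f = 2 → gen w τ X f b k a l ≤ mk b 6 0 0) := by
  have hk0 : k0 X ≤ 3 := by unfold k0; split_ifs <;> omega
  have hb := md_bd X f hf (min (b / w) 13) (by omega) (decide (b % w = 0)) (min k 10) (by omega)
    (by omega)
  unfold gen val
  generalize md X f (min (b / w) 13) (decide (b % w = 0)) (min k 10) = m at hb
  obtain ⟨d, fm, kd⟩ := m
  simp only [Prod.mk.injEq] at hb
  simp only [mk_le_mk]
  refine ⟨by omega, by split_ifs <;> omega, fun h1 h2 => ?_, fun h1 => ?_, fun h1 => ?_,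
    fun h1 h2 => ?_⟩
  · have := hb.2.2.2.1 h1; omega
  · have := hb.2.2.2.1 h1; split_ifs <;> omega
  · have := hb.2.2.2.2 h1; omega
  · have := hb.2.2.2.2 h1; split_ifs <;> omega

theorem pot_mono (w : ℕ) (τ : ℕ → ℕ → ℕ) {f : ℕ} (hf : f < 3) (X : Bool) :
    Monotone (pot w τ f X) := by
  intro x y hxy
  obtain ⟨b, k, a, l, rfl⟩ := exists_mk x
  obtain ⟨b', k', a', l', rfl⟩ := exists_mk y
  rw [mk_le_mk] at hxy
  cases X
  · simp only [pot, pb_mk, pk_mk, pa_mk, pl_mk, Bool.false_eq_true, if_false]
    have lo : ∀ b k a l, w + 1 < b → (if f = 2 then mk (b - 1) 6 0 0 else mk b 0 0 0) ≤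
        potB w τ f b k a l := by
      intro b k a l hb
      unfold potB stepB
      rw [if_neg (show ¬ b < w + 1 by omega)]
      by_cases h1 : k ≤ 1
      · rw [if_pos h1, if_neg (show ¬ b = w + 1 by omega)]
      · rw [if_neg h1]
        by_cases h2 : k = 2
        · rw [if_pos h2]
          split_ifs <;> rw [mk_le_mk] <;> omega
        · rw [if_neg h2]
          refine le_trans ?_ (gen_bd w τ false hf (show k0 false ≤ k by simp [k0]; omega)).1
          split_ifs <;> rw [mk_le_mk] <;> omega
    have hi : ∀ b k a l, potB w τ f b k a l ≤
        (if f = 2 then mk b 6 0 0 else mk (b + 1) 0 0 0) := by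
      intro b k a l
      unfold potB stepB
      by_cases h0 : b < w + 1
      · rw [if_pos h0]
        split_ifs <;> rw [mk_le_mk] <;> omega
      rw [if_neg h0]
      by_cases h1 : k ≤ 1
      · rw [if_pos h1]
        split_ifs <;> rw [mk_le_mk] <;> omega
      · rw [if_neg h1]
        by_cases h2 : k = 2
        · rw [if_pos h2]
          split_ifs <;> rw [mk_le_mk] <;> omega
        · rw [if_neg h2]
          have := gen_bd w τ false hf (b := b) (a := a) (l := l)
            (show k0 false ≤ k by simp [k0]; omega)
          split_ifs with h3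
          · exact this.2.2.2.2.2 rfl h3
          · exact this.2.1
    have hz : ∀ x : Pos, mk 0 0 0 0 ≤ x := by
      intro x
      obtain ⟨b, k, a, l, rfl⟩ := exists_mk x
      simp only [mk_le_mk]; omega
    rcases hxy with h | ⟨rfl, h⟩
    · by_cases hb : w + 1 < b'
      · refine (hi b k a l).trans (le_trans ?_ (lo b' k' a' l' hb))
        split_ifs <;> rw [mk_le_mk] <;> omega
      · have : potB w τ f b k a l = mk 0 0 0 0 := by
          unfold potB; rw [if_pos (by omega)]
        rw [this]; exact hz _
    · by_cases h0 : b < w + 1
      · have : potB w τ f b k a l = mk 0 0 0 0 := by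
          unfold potB; rw [if_pos h0]
        rw [this]; exact hz _
      by_cases h1 : k ≤ 1
      · by_cases h2 : b = w + 1
        · have : potB w τ f b k a l = mk 0 0 0 0 := by
            unfold potB; rw [if_neg h0, if_pos h1, if_pos h2]
          rw [this]; exact hz _
        · refine le_trans (le_of_eq ?_) (lo b k' a' l' (by omega))
          unfold potB; rw [if_neg h0, if_pos h1, if_neg h2]
      unfold potB
      rw [if_neg h0, if_neg h1, if_neg h0, if_neg (show ¬ k' ≤ 1 by omega)]
      by_cases h2 : k = 2
      · rw [if_pos h2]
        by_cases h3 : k' = 2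
        · rw [if_pos h3, mk_le_mk]
          unfold stepB
          split_ifs <;> omega
        · rw [if_neg h3]
          refine le_trans ?_ ((gen_bd w τ false hf
            (show k0 false ≤ k' by simp [k0]; omega)).2.2.2.2.1 rfl)
          rw [mk_le_mk]
          unfold stepB
          split_ifs <;> omega
      · rw [if_neg h2, if_neg (show ¬ k' = 2 by omega)]
        exact gen_mono w τ false hf (by simp [k0]; omega) h
  · simp only [pot, pb_mk, pk_mk, pa_mk, pl_mk, if_true]
    have lo : ∀ b k a l, mk b 0 0 0 ≤ potR w τ f b k a l := by
      intro b k a l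
      unfold potR
      split_ifs with h
      · rw [mk_le_mk]; omega
      · exact (gen_bd w τ true hf (show k0 true ≤ k by simp [k0]; omega)).1
    have hi : ∀ b k a l, potR w τ f b k a l ≤ mk (b + 1) 0 0 0 := by
      intro b k a l
      unfold potR
      split_ifs with h
      · rw [mk_le_mk]; omega
      · exact (gen_bd w τ true hf (show k0 true ≤ k by simp [k0]; omega)).2.1
    rcases hxy with h | ⟨rfl, h⟩
    · refine (hi b k a l).trans (le_trans ?_ (lo b' k' a' l'))
      rw [mk_le_mk]; omega
    · unfold potR
      by_cases h1 : k = 0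
      · rw [if_pos h1]
        by_cases h2 : k' = 0
        · rw [if_pos h2, mk_le_mk]
          unfold keyR
          split_ifs <;> omega
        · rw [if_neg h2]
          have := gen_bd w τ true hf (b := b) (a := a') (l := l')
            (show k0 true ≤ k' by simp [k0]; omega)
          by_cases h3 : f = 2
          · refine le_trans ?_ (this.2.2.2.1 rfl)
            rw [mk_le_mk]
            unfold keyR
            split_ifs <;> omega
          · refine le_trans ?_ (this.2.2.1 rfl h3)
            rw [mk_le_mk]; omega
      · rw [if_neg h1, if_neg (show ¬ k' = 0 by omega)]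
        exact gen_mono w τ true hf (by simp [k0]; omega) h

end Pool.Agent.Lib.MP_da95b5_lc
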