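import Pool.Agent.Lib.MP_da95b5_lc.Inst
import Pool.Agent.Lib.MP_da95b5_lc.Pot

/-!
Completeness: a satisfying assignment gives a colouring.
-/

namespace Pool.Agent.Lib.MP_da95b5_lc

open Pool.Agent.Shared.PolyTime

/-- Symbolic comparison of potential values. -/
def chk (strict same : Bool) (s e : ℕ) (m : ℕ × ℕ × ℕ) (sb : ℕ) (s' e' : ℕ) (m' : ℕ × ℕ × ℕ)
    (sb' : ℕ) : Bool :=
  decide (s ≤ s') && (decide (s + e + m.1 < s' + e' + m'.1) ||
    (decide (s + e + m.1 = s' + e' + m'.1) && (decide (m.2.1 < m'.2.1) ||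
      (decide (m.2.1 = m'.2.1) &&
        ((decide (m.2.2 = 0) && (!strict || (decide (m'.2.2 = 1) && decide (0 < sb')))) ||
          (decide (m.2.2 = 1) && decide (m'.2.2 = 1) && same &&
            (decide (sb < sb') || (!strict && decide (sb = sb')))))))))

theorem chk_le {w : ℕ} (hw : 0 < w) {same : Bool} {s e sb s' e' sb' : ℕ} {m m' : ℕ × ℕ × ℕ}
    (h : chk false same s e m sb s' e' m' sb' = true) {a a' : ℕ} (ha : same = true → a = a')
    (u u' : ℕ) : val (s * w + e) m a u sb ≤ val (s' * w + e') m' a' u' sb' := by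
  simp only [chk, Bool.and_eq_true, Bool.or_eq_true, decide_eq_true_eq, Bool.not_false,
    true_or, true_and, and_true] at h
  have key : s * w + s' ≤ s' * w + s := by nlinarith [h.1]
  unfold val
  rw [mk_le_mk]
  cases same
  · simp only [Bool.false_eq_true, and_false, false_and, or_false] at h
    split_ifs <;> omega
  · have := ha rfl
    simp only [and_true] at h
    split_ifs <;> omega

theorem chk_lt {w : ℕ} (hw : 0 < w) {same : Bool} {s e sb s' e' sb' : ℕ} {m m' : ℕ × ℕ × ℕ}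
    (h : chk true same s e m sb s' e' m' sb' = true) {a a' : ℕ} (ha : same = true → a = a')
    (u u' : ℕ) : val (s * w + e) m a u sb < val (s' * w + e') m' a' u' sb' := by
  simp only [chk, Bool.and_eq_true, Bool.or_eq_true, decide_eq_true_eq, Bool.not_true,
    Bool.false_eq_true, false_or, false_and, or_false] at h
  have key : s * w + s' ≤ s' * w + s := by nlinarith [h.1]
  unfold val
  rw [mk_lt_mk]
  cases same
  · simp only [Bool.false_eq_true, and_false, false_and, or_false] at h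
    split_ifs <;> omega
  · have := ha rfl
    simp only [and_true] at h
    split_ifs <;> omega

theorem sh_val (n b : ℕ) (m : ℕ × ℕ × ℕ) (a u sb : ℕ) :
    sh n (val b m a u sb) = val (b + n) m a u sb := by
  unfold val
  rw [sh_mk, add_right_comm]

theorem pot_gen {w : ℕ} (τ : ℕ → ℕ → ℕ) (f : ℕ) (X : Bool) {b k : ℕ} (a l : ℕ) (hb : w + 1 ≤ b)
    (hk : k0 X ≤ k) : pot w τ f X (mk b k a l) = gen w τ X f b k a l := by
  cases X
  · simp only [k0, Bool.false_eq_true, if_false] at hk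
    simp only [pot, pb_mk, pk_mk, pa_mk, pl_mk, Bool.false_eq_true, if_false, potB]
    rw [if_neg (by omega), if_neg (by omega), if_neg (by omega)]
  · simp only [k0, if_true] at hk
    simp only [pot, pb_mk, pk_mk, pa_mk, pl_mk, if_true, potR]
    rw [if_neg (by omega)]

theorem pot_real {w : ℕ} (hw : 0 < w) (τ : ℕ → ℕ → ℕ) (f : ℕ) (X : Bool) {s k : ℕ} (a l : ℕ)
    (hs : 2 ≤ s) (hs' : s ≤ 13) (hk : k0 X ≤ k) (hk' : k ≤ 10) :
    pot w τ f X (mk (s * w) k a l) =
      val (s * w + 0) (md X f s true k) a (MM w - s * w + w) (sub X f s k (τ s a) l) := by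
  rw [pot_gen τ f X a l (by nlinarith) hk]
  simp [gen, Nat.mul_div_cancel _ hw, hs', hk']

theorem pot_inter {w : ℕ} (τ : ℕ → ℕ → ℕ) (f : ℕ) (X : Bool) {s k i : ℕ} (a l : ℕ)
    (hs : 2 ≤ s) (hs' : s ≤ 13) (hk : k0 X ≤ k) (hk' : k ≤ 10) (hi : 0 < i) (hi' : i < w) :
    pot w τ f X (mk (s * w + i) k a l) =
      val (s * w + i) (md X f s false k) a (MM w - (s * w + i) + w) l := by
  rw [pot_gen τ f X a l (by nlinarith) hk]
  have h1 : (s * w + i) / w = s := by
    rw [add_comm, Nat.add_mul_div_right _ _ (by omega), Nat.div_eq_of_lt hi', zero_add]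
  have h2 : (s * w + i) % w = i := by
    rw [add_comm, Nat.add_mul_mod_self_right, Nat.mod_eq_of_lt hi']
  simp [gen, h1, h2, hs', hk', hi.ne']

def chkL (X same : Bool) (sl kl ll cl sr kr lr cr : ℕ) : Bool :=
  decide (2 ≤ sl) && decide (sl ≤ 13) && decide (2 ≤ sr) && decide (sr ≤ 13) &&
  decide (k0 X ≤ kl) && decide (kl ≤ 10) && decide (k0 X ≤ kr) && decide (kr ≤ 10) &&
  chk false same sl 1 (md X 0 sl true kl) (sub X 0 sl kl cl ll)
    sr 0 (md X 0 sr true kr) (sub X 0 sr kr cr lr) &&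
  chk false true sr 0 (md X 1 sr true kr) (sub X 1 sr kr cr lr)
    sr 0 (md X 0 sr true kr) (sub X 0 sr kr cr lr) &&
  chk false true sl 0 (md X 0 sl true kl) (sub X 0 sl kl cl ll)
    sl 0 (md X 2 sl true kl) (sub X 2 sl kl cl ll) &&
  chk true same sr 0 (md X 2 sr true kr) (sub X 2 sr kr cr lr)
    (sl + 1) 0 (md X 1 sl true kl) (sub X 1 sl kl cl ll)

/-- The interval is certified for one of the two colours, the first one if it starts early. -/
def CertX (w : ℕ) (τ : ℕ → ℕ → ℕ) (x : Iv) (X : Bool) : Prop :=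
  Cert w (pot w τ 0 X) (pot w τ 1 X) (pot w τ 2 X) x ∧ (x.1 < theta w → X = true)

theorem not_lt_theta {w : ℕ} (hw : 0 < w) {s i k a l : ℕ} (hs : 2 ≤ s) (hk : 1 ≤ k) :
    ¬ mk (s * w + i) k a l < theta w := by
  have : 2 * w ≤ s * w := Nat.mul_le_mul_right _ hs
  simp only [theta, mk_lt_mk]
  omega

theorem k0_pos (X : Bool) : 1 ≤ k0 X := by cases X <;> simp [k0]

theorem certL {w : ℕ} (hw : 0 < w) (τ : ℕ → ℕ → ℕ) {X same : Bool} {sl kl ll sr kr lr a a' : ℕ}
    (h : chkL X same sl kl ll (τ sl a) sr kr lr (τ sr a') = true) (ha : same = true → a = a') :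
    CertX w τ (mk (sl * w) kl a ll, mk (sr * w) kr a' lr) X := by
  simp only [chkL, Bool.and_eq_true, decide_eq_true_eq] at h
  obtain ⟨⟨⟨⟨⟨⟨⟨⟨⟨⟨⟨h1, h2⟩, h3⟩, h4⟩, h5⟩, h6⟩, h7⟩, h8⟩, c1⟩, c2⟩, c3⟩, c4⟩ := h
  refine ⟨?_, fun h => absurd h (not_lt_theta hw (i := 0) h1 ((k0_pos X).trans h5))⟩
  simp only [Cert, pot_real hw τ _ X _ _ h1 h2 h5 h6, pot_real hw τ _ X _ _ h3 h4 h7 h8, sh_val]
  refine ⟨chk_le hw c1 ha _ _, chk_le hw c2 (fun _ => rfl) _ _, chk_le hw c3 (fun _ => rfl) _ _,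
    ?_⟩
  have := chk_lt hw c4 (fun h => (ha h).symm) (MM w - sr * w + w) (MM w - sl * w + w)
  rwa [show (sl + 1) * w + 0 = sl * w + 0 + w by ring] at this

def chkC (t : CT) (Y : Bool) (cl cr : ℕ) : Bool :=
  chkL Y true t.s t.kl t.ll cl (t.s + 1) t.kr t.lr cr &&
  decide (3 ≤ t.ks) && decide (t.ks ≤ 10) && decide (3 ≤ t.kr) &&
  decide (md t.X 1 t.s false t.ks = md t.X 0 t.s false t.ks) &&
  decide (md t.X 2 t.s false t.ks = md t.X 0 t.s false t.ks) &&
  decide ((md t.X 0 t.s false t.ks).1 = 0) && decide ((md t.X 0 t.s false t.ks).2.2 = 1) &&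
  chk false true (t.s + 1) 0 (md t.X 0 t.s false t.ks) t.σ
    (t.s + 1) 0 (md t.X 0 (t.s + 1) true t.kr) (sub t.X 0 (t.s + 1) t.kr cr t.lr) &&
  chk false true (t.s + 1) 0 (md t.X 1 (t.s + 1) true t.kr) (sub t.X 1 (t.s + 1) t.kr cr t.lr)
    (t.s + 1) 0 (md t.X 0 (t.s + 1) true t.kr) (sub t.X 0 (t.s + 1) t.kr cr t.lr) &&
  decide ((md t.X 2 (t.s + 1) true t.kr).1 = 0) &&
  chk false true t.s 1 (md Y 0 t.s true t.kl) (sub Y 0 t.s t.kl cl t.ll)
    t.s 1 (md Y 0 t.s false t.ks) t.σ &&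
  chk false true t.s 1 (md Y 1 t.s false t.ks) t.σ t.s 1 (md Y 0 t.s false t.ks) t.σ &&
  decide ((md Y 2 t.s false t.ks).1 = 0)

theorem val_lt_of {b b' : ℕ} {m m' : ℕ × ℕ × ℕ} (h : b + m.1 < b') (a u sb a' u' sb' : ℕ) :
    val b m a u sb < val b' m' a' u' sb' := by
  unfold val
  rw [mk_lt_mk]
  omega

theorem val_kind1 {m : ℕ × ℕ × ℕ} (h : m.2.2 = 1) (b a u u' sb : ℕ) :
    val b m a u sb = val b m a u' sb := by
  simp [val, h]

theorem certC {w : ℕ} (hw : 0 < w) (τ : ℕ → ℕ → ℕ) {t : CT} {Y : Bool} {a : ℕ}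
    (h : chkC t Y (τ t.s a) (τ (t.s + 1) a) = true) {i : ℕ} (hi : i < w) :
    ∃ X, CertX w τ (ivC w a t i) X := by
  simp only [chkC, Bool.and_eq_true, decide_eq_true_eq] at h
  obtain ⟨⟨⟨⟨⟨⟨⟨⟨⟨⟨⟨⟨⟨hL, k1⟩, k2⟩, k3⟩, m1⟩, m2⟩, m3⟩, m4⟩, c1⟩, c2⟩, m5⟩, c3⟩, c4⟩, m6⟩ := h
  have hL' := certL hw τ hL (fun _ => rfl)
  simp only [chkL, Bool.and_eq_true, decide_eq_true_eq] at hL
  obtain ⟨⟨⟨⟨⟨⟨⟨⟨⟨⟨⟨h1, h2⟩, h3⟩, h4⟩, h5⟩, h6⟩, h7⟩, h8⟩, -⟩, -⟩, d3⟩, -⟩ := hL
  have hk0 : ∀ X, k0 X ≤ 3 := fun X => by cases X <;> simp [k0]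
  by_cases h0 : i = 0
  · subst h0
    by_cases hw1 : 1 = w
    · refine ⟨Y, ?_⟩
      subst hw1
      simpa [ivC, cpos] using hL'
    · refine ⟨Y, ?_, fun h => absurd h (not_lt_theta hw (i := 0) h1 ((k0_pos Y).trans h5))⟩
      simp only [ivC, cpos, if_true, zero_add, one_ne_zero, if_false, hw1, Cert,
        pot_real hw τ _ Y _ _ h1 h2 h5 h6,
        pot_inter τ _ Y _ _ h1 h2 ((hk0 Y).trans k1) k2 one_pos (show 1 < w by omega), sh_val]
      exact ⟨chk_le hw c3 (fun _ => rfl) _ _, chk_le hw c4 (fun _ => rfl) _ _,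
        chk_le hw d3 (fun _ => rfl) _ _, val_lt_of (by omega) _ _ _ _ _ _⟩
  · refine ⟨t.X, ?_, ?_⟩
    · by_cases hw1 : i + 1 = w
      · simp only [ivC, cpos, h0, hi.ne, hw1, hw.ne', if_true, if_false, Cert,
          pot_real hw τ _ t.X _ _ h3 h4 ((hk0 _).trans k3) h8,
          pot_inter τ _ t.X _ _ h1 h2 ((hk0 _).trans k1) k2 (Nat.pos_of_ne_zero h0) hi, sh_val,
          m1, m2]
        refine ⟨?_, chk_le hw c2 (fun _ => rfl) _ _, le_rfl, val_lt_of ?_ _ _ _ _ _ _⟩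
        · have := chk_le hw c1 (a := a) (fun _ => rfl) (MM w - (t.s * w + i) + w)
            (MM w - (t.s + 1) * w + w)
          rwa [show (t.s + 1) * w + 0 = t.s * w + i + 1 by rw [add_mul]; omega] at this ⊢
        · rw [add_mul]; omega
      · simp only [ivC, cpos, h0, hi.ne, hw1, Nat.add_eq_zero_iff, one_ne_zero, and_false,
          if_false, Cert,
          pot_inter τ _ t.X _ _ h1 h2 ((hk0 _).trans k1) k2 (Nat.pos_of_ne_zero h0) hi,
          pot_inter τ _ t.X _ _ h1 h2 ((hk0 _).trans k1) k2 (Nat.succ_pos i)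
            (show i + 1 < w by omega), sh_val, m1, m2]
        exact ⟨(val_kind1 m4 _ _ _ _ _).le, le_rfl, le_rfl, val_lt_of (by omega) _ _ _ _ _ _⟩
    · intro h
      simp only [ivC, cpos, h0, hi.ne, if_false] at h
      exact absurd h (not_lt_theta hw h1 (by omega))

/-- Colour of a template from its colour code and the truth code of its slot. -/
def colf (cc code : ℕ) : Bool :=
  if cc = 0 then true else if cc = 1 then false else if cc = 2 then decide (code = 1)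
  else if cc = 3 then decide (code ≠ 1) else if cc = 4 then decide (code % 2 = 0)
  else if cc = 5 then decide (code / 2 % 2 = 0) else if cc = 6 then decide (code / 4 % 2 = 0)
  else if cc = 7 then decide (code % 4 = 3) else decide (code / 4 % 2 = 1)

def cd (vc cc s : ℕ) : ℕ := if s ≤ 8 then vc else cc

def chkG (Ls : List LT) (Cs : List CT) (vc cc : ℕ) : Bool :=
  Ls.all (fun t => chkL (colf t.cc (cd vc cc t.sl)) true t.sl t.kl t.ll (cd vc cc t.sl)
    t.sr t.kr t.lr (cd vc cc t.sr)) &&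
  Cs.all (fun t => chkC t (colf t.cc (cd vc cc t.s)) (cd vc cc t.s) (cd vc cc (t.s + 1)))

theorem certG {w : ℕ} (hw : 0 < w) (vc cc : ℕ → ℕ) {Ls : List LT} {Cs : List CT} {a : ℕ}
    (h : chkG Ls Cs (vc a) (cc a) = true) :
    ∀ x ∈ gad w Ls Cs a, ∃ X, CertX w (fun s a => cd (vc a) (cc a) s) x X := by
  simp only [chkG, Bool.and_eq_true, List.all_eq_true] at h
  intro x hx
  rcases mem_gad.1 hx with ⟨t, ht, rfl⟩ | ⟨t, ht, i, hi, rfl⟩
  · exact ⟨_, certL hw (fun s a => cd (vc a) (cc a) s) (h.1 t ht) (fun _ => rfl)⟩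
  · exact certC hw (fun s a => cd (vc a) (cc a) s) (h.2 t ht) hi

theorem chkG_V : ∀ vc < 2, ∀ cc < 8, chkG VL VC vc cc = true := by decide +kernel
theorem chkG_S : ∀ vc < 2, ∀ cc < 8, chkG SL SC vc cc = true := by decide +kernel
theorem chkG_C : ∀ vc < 2, ∀ cc < 7, chkG CL CC vc cc = true := by decide +kernel
theorem chk_X : ∀ t sg : Bool, ∀ cc < 7, ∀ j < 3, cc / 2 ^ j % 2 = (t != sg).toNat →
    chkL (t != sg) false 8 7 (bif sg then 1 else 4) t.toNat 9 7 (3 * j + 1) cc = true := by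
  decide +kernel

theorem md_six : ∀ s < 14, ∀ real : Bool, mdR 1 s real 6 = (0, 1, 0) ∧
    mdR 2 s real 6 = (0, 0, 2) ∧ mdB 0 s real 8 = (1, 0, 0) ∧ mdB 1 s real 8 = (1, 0, 0) := by
  decide +kernel

theorem potB_ctrl (w : ℕ) (τ : ℕ → ℕ → ℕ) (f t l : ℕ) :
    pot w τ f false (mk (max t (w + 1)) 2 t l) = mk t (if f = 1 ∧ 2 ≤ l then 1 else 0) 0 0 := by
  have h : stepB w (max t (w + 1)) t = t := by unfold stepB; split_ifs <;> omega
  simp only [pot, pb_mk, pk_mk, pa_mk, pl_mk, potB, h, Bool.false_eq_true, if_false]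
  rw [if_neg (by omega), if_neg (by omega)]
  simp

theorem potB_one {w : ℕ} (τ : ℕ → ℕ → ℕ) (f : ℕ) {b : ℕ} (hb : w + 1 < b) :
    pot w τ f false (mk b 1 0 0) = if f = 2 then mk (b - 1) 6 0 0 else mk b 0 0 0 := by
  simp only [pot, pb_mk, pk_mk, pa_mk, pl_mk, potB, Bool.false_eq_true, if_false]
  rw [if_neg (by omega), if_pos le_rfl, if_neg (by omega)]

theorem cert_ctrl {w : ℕ} (hw : 0 < w) (τ : ℕ → ℕ → ℕ) : ∀ x ∈ ctrl w, ∃ X, CertX w τ x X := by
  intro x hx
  obtain ⟨t, ht, rfl | rfl | rfl | rfl | rfl | ⟨i, hi, rfl⟩⟩ := mem_ctrl.1 hx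
  · refine ⟨true, ?_, fun _ => rfl⟩
    have h0 := (gen_bd w τ true (f := 0) (by omega) (b := t + w) (k := 6) (a := 0) (l := 0)
      (by decide)).2.2.1 rfl (by omega)
    have hm := md_six (min ((t + w) / w) 13) (by omega) (decide ((t + w) % w = 0))
    have h1 : gen w τ true 1 (t + w) 6 0 0 = mk (t + w) 1 0 0 := by
      simp only [gen, md, if_true, show min 6 10 = 6 from rfl, hm.1, val]; simp
    have h2 : gen w τ true 2 (t + w) 6 0 0 = mk (t + w) 0 (MM w - (t + w) + w) 0 := by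
      simp only [gen, md, if_true, show min 6 10 = 6 from rfl, hm.2.1, val]; simp
    simp only [Cert, kcR, pot, pb_mk, pk_mk, pa_mk, pl_mk, if_true, potR, h1, h2, sh_mk,
      show ¬ (6 = 0) by omega, if_false]
    refine ⟨le_trans ?_ h0, h0, ?_, ?_⟩
    · rw [mk_le_mk]; omega
    · simp [keyR]
    · simp only [keyR, MM, mk_lt_mk]; simp; omega
  · refine ⟨true, ?_, fun _ => rfl⟩
    simp only [Cert, ke, pot, pb_mk, pk_mk, pa_mk, pl_mk, if_true, potR, sh_mk, keyR, MM,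
      mk_le_mk, mk_lt_mk]
    simp; omega
  · refine ⟨false, ?_, fun h => ?_⟩
    · simp only [Cert, kcB, potB_ctrl, potB_one τ _ (show w + 1 < t + 2 + w by omega)]
      simp [mk_le_mk, mk_lt_mk]; omega
    · simp only [kcB, theta, mk_lt_mk] at h; omega
  · refine ⟨false, ?_, fun h => ?_⟩
    · simp only [Cert, kl, potB_ctrl]
      simp [mk_lt_mk]; omega
    · simp only [kl, theta, mk_lt_mk] at h; omega
  · refine ⟨false, ?_, fun h => ?_⟩
    · have hm := md_six (min ((t + (w + 1)) / w) 13) (by omega) (decide ((t + (w + 1)) % w = 0))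
      have h1 : gen w τ false 0 (t + (w + 1)) 8 0 0 = mk (t + (w + 1) + 1) 0 0 0 := by
        simp only [gen, md, Bool.false_eq_true, if_false, show min 8 10 = 8 from rfl, hm.2.2.1,
          val]; simp
      have h2 : gen w τ false 1 (t + (w + 1)) 8 0 0 = mk (t + (w + 1) + 1) 0 0 0 := by
        simp only [gen, md, Bool.false_eq_true, if_false, show min 8 10 = 8 from rfl, hm.2.2.2,
          val]; simp
      have h3 := (gen_bd w τ false (f := 2) (by omega) (b := t + (w + 1)) (k := 8) (a := 0)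
        (l := 0) (by decide)).2.2.2.2.2 rfl rfl
      have h4 := fun f l => potB_ctrl w τ f (t + (w + 1)) l
      rw [show max (t + (w + 1)) (w + 1) = t + (w + 1) by omega] at h4
      simp only [Cert, km, h4, pot_gen τ _ false 0 0 (show w + 1 ≤ t + (w + 1) by omega)
        (show k0 false ≤ 8 by decide), h1, h2]
      refine ⟨by simp, le_rfl, by simp, h3.trans_lt ?_⟩
      simp [mk_lt_mk]; omega
    · simp only [km, theta, mk_lt_mk] at h; omega
  · refine ⟨true, ?_, fun _ => rfl⟩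
    simp only [Cert, klk, pot, pb_mk, pk_mk, pa_mk, pl_mk, if_true, potR, sh_mk, keyR, MM,
      mk_le_mk, mk_lt_mk]
    simp; omega

/-- Truth code of a clause. -/
def ccode (ν : ℕ → Bool) (c : Clause3 ℕ) : ℕ :=
  (ν c.1.1 != c.1.2).toNat + 2 * (ν c.2.1.1 != c.2.1.2).toNat + 4 * (ν c.2.2.1 != c.2.2.2).toNat

theorem ccode_lt8 (ν : ℕ → Bool) (c : Clause3 ℕ) : ccode ν c < 8 := by
  unfold ccode
  cases (ν c.1.1 != c.1.2) <;> cases (ν c.2.1.1 != c.2.1.2) <;> cases (ν c.2.2.1 != c.2.2.2) <;>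
    simp

theorem ccode_lt7 {ν : ℕ → Bool} {c : Clause3 ℕ} (h : c.Holds ν) : ccode ν c < 7 := by
  unfold ccode
  rcases h with h | h | h <;> rw [h] <;>
  cases (ν c.1.1 != c.1.2) <;> cases (ν c.2.1.1 != c.2.1.2) <;> cases (ν c.2.2.1 != c.2.2.2) <;>
    simp

theorem inst_complete {w : ℕ} (hw : 0 < w) {φ : List (Clause3 ℕ)} (h : Sat3 φ) :
    ∃ col : Iv → Bool, Good (w + 1) (inst w φ) col ∧
      ∀ x ∈ inst w φ, x.1 < theta w → col x = true := by
  classical
  obtain ⟨ν, hν⟩ := h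
  let vc : ℕ → ℕ := fun a => (ν a).toNat
  let cc : ℕ → ℕ := fun a => ccode ν (Function.invFun numberOf a)
  have hvc : ∀ a, vc a < 2 := fun a => Bool.toNat_lt _
  have hcc : ∀ a, cc a < 8 := fun a => ccode_lt8 _ _
  have hcc' : ∀ c : Clause3 ℕ, cc (numberOf c) = ccode ν c := fun c => by
    simp only [cc, Function.leftInverse_invFun numberOf_injective c]
  let τ : ℕ → ℕ → ℕ := fun s a => cd (vc a) (cc a) s
  have hall : ∀ x ∈ inst w φ, ∃ X, CertX w τ x X := by
    intro x hx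
    simp only [inst, List.mem_append, List.mem_flatMap] at hx
    rcases hx with (hx | hx) | ⟨c, hc, hx⟩
    · exact cert_ctrl hw τ x hx
    · exact certG hw vc cc (chkG_S _ (hvc _) _ (hcc _)) x hx
    · have h7 : cc (numberOf c) < 7 := by rw [hcc']; exact ccode_lt7 (hν c hc)
      have hX : ∀ (y : Lit ℕ) (j : ℕ), j < 3 → ccode ν c / 2 ^ j % 2 = (ν y.1 != y.2).toNat →
          ∃ X, CertX w τ (ivX w y (numberOf c) j) X := by
        intro y j hj e
        rw [← hcc'] at e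
        exact ⟨_, certL hw τ (same := false) (chk_X (ν y.1) y.2 _ h7 j hj e) (fun h => by simp at h)⟩
      simp only [clauseGad, List.mem_append, List.mem_cons, List.not_mem_nil, or_false] at hx
      rcases hx with (((hx | hx) | hx) | hx) | rfl | rfl | rfl
      · exact certG hw vc cc (chkG_V _ (hvc _) _ (hcc _)) x hx
      · exact certG hw vc cc (chkG_V _ (hvc _) _ (hcc _)) x hx
      · exact certG hw vc cc (chkG_V _ (hvc _) _ (hcc _)) x hx
      · exact certG hw vc cc (chkG_C _ (hvc _) _ h7) x hx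
      all_goals
        refine hX _ _ (by omega) ?_
        unfold ccode
        cases (ν c.1.1 != c.1.2) <;> cases (ν c.2.1.1 != c.2.1.2) <;>
          cases (ν c.2.2.1 != c.2.2.2) <;> simp
  choose! col hcol using hall
  exact ⟨col, good_of_cert w _ (pot w τ 0) (pot w τ 1) (pot w τ 2) (pot_mono w τ (by omega))
    (pot_mono w τ (by omega)) (pot_mono w τ (by omega)) col (fun x hx => (hcol x hx).1),
    fun x hx => (hcol x hx).2⟩

end Pool.Agent.Lib.MP_da95b5_lc
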