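import Pool.Agent.Lib.MP_da95b5_lc.Main

/-!
The instances of the reduction are covered by a bounded number of cliques.
-/

namespace Pool.Agent.Lib.MP_da95b5_lc

open Pool.Agent.Shared.PolyTime N68a2faeb

/-- The intervals of `S` are stabbed by at most `N` positions. -/
def Stab (N : ℕ) (S : List Iv) : Prop :=
  ∃ P : Finset Pos, P.card ≤ N ∧ ∀ x ∈ S, ∃ p ∈ P, x.1 < p ∧ p ≤ x.2

theorem stab_of_pb {x : Iv} (h : pb x.1 < pb x.2) :
    x.1 < mk (pb x.1 + 1) 0 0 0 ∧ mk (pb x.1 + 1) 0 0 0 ≤ x.2 := by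
  obtain ⟨x1, x2⟩ := x
  obtain ⟨b, k, a, l, rfl⟩ := exists_mk x1
  obtain ⟨b', k', a', l', rfl⟩ := exists_mk x2
  simp only [pb_mk, mk_lt_mk, mk_le_mk] at h ⊢
  omega

theorem gad_pb {w : ℕ} (hw : 0 < w) {Ls : List LT} {Cs : List CT} (hL : ∀ t ∈ Ls, t.sl < t.sr)
    (a : ℕ) : ∀ x ∈ gad w Ls Cs a, pb x.1 < pb x.2 := by
  intro x hx
  rcases mem_gad.1 hx with ⟨t, ht, rfl⟩ | ⟨t, -, i, -, rfl⟩
  · exact Nat.mul_lt_mul_of_pos_right (hL t ht) hw
  · simp [ivC, pb_cpos]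

theorem inst_cases {w : ℕ} (hw : 0 < w) (φ : List (Clause3 ℕ)) : ∀ x ∈ inst w φ,
    pb x.1 < pb x.2 ∨ (∃ t < w + 1, x = kl w t) ∨ ∃ t < 12 * w + 1, x = km w t := by
  intro x hx
  simp only [inst, List.mem_append, List.mem_flatMap] at hx
  rcases hx with (hx | hx) | ⟨c, -, hx⟩
  · obtain ⟨t, ht, rfl | rfl | rfl | rfl | rfl | ⟨i, hi, rfl⟩⟩ := mem_ctrl.1 hx
    · left; simp only [kcR, pb_mk]; omega
    · left; simp only [ke, pb_mk]; omega
    · left; simp only [kcB, pb_mk]; omega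
    · by_cases h : t < w + 1
      · exact Or.inr (Or.inl ⟨t, h, rfl⟩)
      · left; simp only [kl, pb_mk]; omega
    · exact Or.inr (Or.inr ⟨t, ht, rfl⟩)
    · left; simp only [klk, pb_mk]; omega
  · exact Or.inl (gad_pb hw (by decide) _ x hx)
  · simp only [clauseGad, List.mem_append, List.mem_cons, List.not_mem_nil, or_false] at hx
    rcases hx with (((hx | hx) | hx) | hx) | rfl | rfl | rfl
    · exact Or.inl (gad_pb hw (by decide) _ x hx)
    · exact Or.inl (gad_pb hw (by decide) _ x hx)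
    · exact Or.inl (gad_pb hw (by decide) _ x hx)
    · exact Or.inl (gad_pb hw (by decide) _ x hx)
    all_goals left; simp only [ivX, pb_mk]; omega

theorem pb_lt_of_lt {x : Pos} {B : ℕ} (h : x < mk B 0 0 0) : pb x < B := by
  obtain ⟨b, k, a, l, rfl⟩ := exists_mk x
  simp only [pb_mk, mk_lt_mk] at h ⊢
  omega

theorem inst_stab {w : ℕ} (hw : 0 < w) (φ : List (Clause3 ℕ)) :
    Stab (27 * w + 5) (inst w φ) := by
  classical
  refine ⟨(Finset.range (14 * w + 3)).image (fun b => mk (b + 1) 0 0 0) ∪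
    (Finset.range (w + 1)).image (fun t => (kl w t).2) ∪
    (Finset.range (12 * w + 1)).image (fun t => (km w t).2), ?_, fun x hx => ?_⟩
  · refine (Finset.card_union_le _ _).trans ?_
    refine (Nat.add_le_add (Finset.card_union_le _ _) Finset.card_image_le).trans ?_
    refine (Nat.add_le_add_right (Nat.add_le_add Finset.card_image_le Finset.card_image_le) _).trans ?_
    simp only [Finset.card_range]
    omega
  · have h1 := inst_ne hw φ x hx
    simp only [Finset.mem_union, Finset.mem_image, Finset.mem_range]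
    rcases inst_cases hw φ x hx with h | ⟨t, ht, rfl⟩ | ⟨t, ht, rfl⟩
    · exact ⟨_, Or.inl (Or.inl ⟨_, pb_lt_of_lt h1.2, rfl⟩), stab_of_pb h⟩
    · exact ⟨_, Or.inl (Or.inr ⟨t, ht, rfl⟩), h1.1, le_rfl⟩
    · exact ⟨_, Or.inr ⟨t, ht, rfl⟩, h1.1, le_rfl⟩

theorem ext_stab {v K N : ℕ} {θ : Pos} {S : List Iv} (hv : 0 < v) (h : Stab N S) :
    Stab (N + v * (v + 1) ^ K) (ext v K θ S) := by
  classical
  obtain ⟨P, hP, h⟩ := h
  refine ⟨P.image (sh 1) ∪ (Finset.range (v * (v + 1) ^ K)).image (fun a => mk 0 0 0 (a + 1)),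
    ?_, fun x hx => ?_⟩
  · refine (Finset.card_union_le _ _).trans (Nat.add_le_add (Finset.card_image_le.trans hP)
      (Finset.card_image_le.trans ?_))
    simp
  · simp only [Finset.mem_union, Finset.mem_image, Finset.mem_range]
    rcases mem_ext.1 hx with rfl | hx | ⟨y, hy, rfl⟩
    · exact ⟨_, Or.inr ⟨0, by positivity, rfl⟩, mk0_lt.2 (by omega), (zero_lt_sh _ _).le⟩
    · obtain ⟨j, hj, a, ha, rfl⟩ := mem_block.1 hx
      have hp : 0 < (v + 1) ^ j := by positivity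
      refine ⟨_, Or.inr ⟨a * (v + 1) ^ j, ?_, rfl⟩, mk0_lt.2 (by omega), mk0_le.2 (by nlinarith)⟩
      calc a * (v + 1) ^ j < v * (v + 1) ^ (K - j) * (v + 1) ^ j :=
            Nat.mul_lt_mul_of_pos_right ha hp
        _ = v * (v + 1) ^ K := by rw [mul_assoc, ← pow_add, Nat.sub_add_cancel hj]
    · obtain ⟨p, hp, h1, h2⟩ := h y hy
      exact ⟨_, Or.inl ⟨p, hp, rfl⟩, sh_lt_sh.2 h1, sh_le_sh.2 h2⟩

theorem Stab.mono {N N' : ℕ} {S : List Iv} (h : Stab N S) (hN : N ≤ N') : Stab N' S := by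
  obtain ⟨P, hP, h⟩ := h
  exact ⟨P, hP.trans hN, h⟩

theorem colorable_of_stab {N : ℕ} {S : List Iv} (h : Stab N S) :
    (graphOf (adjOf S))ᶜ.Colorable N := by
  classical
  obtain ⟨P, hP, h⟩ := h
  choose p hp1 hp2 hp3 using fun i => h _ (ivOf_mem S i)
  have hc : (graphOf (adjOf S))ᶜ.Coloring P := SimpleGraph.Coloring.mk (fun i => ⟨p i, hp1 i⟩) (by
    intro i j hij e
    have e' : p i = p j := congrArg Subtype.val e
    rw [SimpleGraph.compl_adj] at hij
    exact hij.2 ((adj_iff S i j).2 ⟨hij.1, (hp2 i).trans_le (e' ▸ hp3 j),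
      (hp2 j).trans_le (e' ▸ hp3 i)⟩))
  exact hc.colorable.mono (by simpa using hP)

theorem hard_iv_stab {w : ℕ} (hw : 0 < w) (k : ℕ) :
    ∃ B, NPHardOn (fun S : List Iv => NE S ∧ (∀ x ∈ S, x.1 < mk B 0 0 0) ∧
      Stab ((w + 2) ^ (k + 2) + 26 * (w + 1)) S) (Colourable (k + 2) (w + 1)) := by
  induction k with
  | zero =>
    refine ⟨14 * w + 3 + 1, npHardOn_sat3.reduce
      (fun φ => ext (w + 1) 1 (theta w) (inst w φ)) ((pt_ext _ _ _).comp (pt_inst w))
      fun φ _ => ⟨⟨ext_ne fun x hx => (inst_ne hw φ x hx).1,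
        ext_bound fun x hx => (inst_ne hw φ x hx).2,
        (ext_stab (by omega) (inst_stab hw φ)).mono (by
          rw [pow_one, zero_add, sq]
          nlinarith)⟩, base_iff hw φ⟩⟩
  | succ k ih =>
    obtain ⟨B, hB⟩ := ih
    exact ⟨B + 1, hB.reduce (ext (w + 1) (k + 2) (mk B 0 0 0)) (pt_ext _ _ _)
      fun S hS => ⟨⟨ext_ne hS.1, ext_bound hS.2.1, (ext_stab (by omega) hS.2.2).mono (by
          rw [pow_succ (w + 2) (k + 2), show w + 1 + 1 = w + 2 from rfl]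
          exact le_of_eq (by ring))⟩,
        (ext_step (by omega) (by omega) hS.1 hS.2.1).symm⟩⟩

theorem hard_graph_cover {k v : ℕ} (hk : 2 ≤ k) (hv : 2 ≤ v) :
    NPHardOn (fun A : List (List ℕ) => IsIntervalGraph (graphOf A) ∧
        (graphOf A)ᶜ.Colorable ((v + 1) ^ k + 26 * v))
      (fun A => HasPartition k v (graphOf A)) := by
  obtain ⟨k, rfl⟩ : ∃ k', k = k' + 2 := ⟨k - 2, by omega⟩
  obtain ⟨w, rfl⟩ : ∃ w, v = w + 1 := ⟨v - 1, by omega⟩
  obtain ⟨B, hB⟩ := hard_iv_stab (w := w) (by omega) k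
  exact hB.reduce adjOf pt_adjOf fun S hS => ⟨⟨isIntervalGraph_adjOf hS.1,
    colorable_of_stab hS.2.2⟩,
    hasPartition_of_colourable hS.1, colourable_of_hasPartition hS.1 (by omega) (by omega)⟩

end Pool.Agent.Lib.MP_da95b5_lc
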