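import Mathlib

/-!
Definitions used in the statement.
-/

namespace Pool.Agent.Lib.MP_da95b5_lc

/-- The graph given by adjacency lists: vertices `0, …, n - 1`, where `n` is the number of lists,
and distinct `i, j` are adjacent when `j` occurs in list `i` or `i` occurs in list `j`. -/
def graphOf (A : List (List ℕ)) : SimpleGraph (Fin A.length) :=
  SimpleGraph.fromRel fun i j => (j : ℕ) ∈ A.get i

/-- Vertices can be assigned nonempty open real intervals such that distinct vertices are adjacent
exactly when their intervals meet. -/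
def IsIntervalGraph {V : Type} (G : SimpleGraph V) : Prop :=
  ∃ a b : V → ℝ, (∀ x, a x < b x) ∧ ∀ x y, x ≠ y →
    (G.Adj x y ↔ (Set.Ioo (a x) (b x) ∩ Set.Ioo (a y) (b y)).Nonempty)

/-- The claw number is at most `v`: every induced star `K_{1,m}` has `m ≤ v`. -/
def ClawNumberLE {V : Type} (G : SimpleGraph V) (v : ℕ) : Prop :=
  ∀ m : ℕ, Nonempty (completeBipartiteGraph (Fin 1) (Fin m) ↪g G) → m ≤ v

/-- The vertex set splits into `k` parts each inducing a subgraph of claw number at most `v`. -/
def HasPartition {V : Type} (k v : ℕ) (G : SimpleGraph V) : Prop :=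
  ∃ c : V → Fin k, ∀ i, ClawNumberLE (G.induce {x | c x = i}) v

end Pool.Agent.Lib.MP_da95b5_lc
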