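import Pool.Agent.Lib.MP_da95b5_lc.Block
import Pool.Agent.Lib.MP_da95b5_lc.Defs

/-!
From lists of intervals to adjacency lists.
-/

namespace Pool.Agent.Lib.MP_da95b5_lc

/-- Adjacency lists of the intersection graph. -/
def adjOf (S : List Iv) : List (List ℕ) :=
  S.map fun x => (S.zipIdx.filter fun y => decide (x.1 < y.1.2 ∧ y.1.1 < x.2)).map Prod.snd

theorem adjOf_length (S : List Iv) : (adjOf S).length = S.length := by simp [adjOf]

/-- The interval of a vertex. -/
def ivOf (S : List Iv) (i : Fin (adjOf S).length) : Iv := S.get (i.cast (adjOf_length S))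

theorem ivOf_mem (S : List Iv) (i : Fin (adjOf S).length) : ivOf S i ∈ S := List.get_mem _ _

theorem exists_ivOf {S : List Iv} {x : Iv} (hx : x ∈ S) : ∃ i, ivOf S i = x := by
  obtain ⟨i, rfl⟩ := List.get_of_mem hx
  exact ⟨i.cast (adjOf_length S).symm, rfl⟩

theorem adj_iff (S : List Iv) (i j : Fin (adjOf S).length) :
    (graphOf (adjOf S)).Adj i j ↔
      i ≠ j ∧ (ivOf S i).1 < (ivOf S j).2 ∧ (ivOf S j).1 < (ivOf S i).2 := by
  have key : ∀ i j : Fin (adjOf S).length, (j : ℕ) ∈ (adjOf S).get i ↔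
      (ivOf S i).1 < (ivOf S j).2 ∧ (ivOf S j).1 < (ivOf S i).2 := by
    intro i j
    have hj : (j : ℕ) < S.length := j.2.trans_eq (adjOf_length S)
    simp only [adjOf, ivOf, List.get_eq_getElem, List.getElem_map, List.mem_map, List.mem_filter,
      decide_eq_true_eq, Fin.val_cast]
    constructor
    · rintro ⟨⟨y, n⟩, ⟨h1, h2⟩, rfl⟩
      obtain ⟨-, h3⟩ := List.mem_zipIdx' h1
      simp only at h2 ⊢
      rw [← h3]; exact h2
    · intro h
      refine ⟨(S[(j : ℕ)], j), ⟨?_, h⟩, rfl⟩
      rw [List.mem_zipIdx_iff_getElem?]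
      simp [hj]
  simp only [graphOf, SimpleGraph.fromRel_adj, key]
  tauto

theorem isIntervalGraph_adjOf {S : List Iv} (hS : NE S) : IsIntervalGraph (graphOf (adjOf S)) := by
  have : Countable Pos := inferInstanceAs (Countable (ℕ × ℕ × ℕ × ℕ))
  obtain ⟨e⟩ : Nonempty (Pos ↪o ℝ) := Order.embedding_from_countable_to_dense Pos ℝ
  refine ⟨fun i => e (ivOf S i).1, fun i => e (ivOf S i).2,
    fun i => e.lt_iff_lt.2 (hS _ (ivOf_mem S i)), fun i j hij => ?_⟩
  rw [adj_iff, Set.Ioo_inter_Ioo, Set.nonempty_Ioo]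
  have h1 := hS _ (ivOf_mem S i)
  have h2 := hS _ (ivOf_mem S j)
  simp [hij, h1, h2, and_comm]

theorem colourable_of_hasPartition {k v : ℕ} {S : List Iv} (hS : NE S) (hv : 0 < v) (hk : 0 < k)
    (h : HasPartition k v (graphOf (adjOf S))) : Colourable k v S := by
  classical
  obtain ⟨c, hc⟩ := h
  have : Nonempty (Fin k) := ⟨⟨0, hk⟩⟩
  refine (good_of_rel v S (fun x χ => ∃ i, ivOf S i = x ∧ c i = χ) ?_ ?_).imp fun col' h' => h'.1
  · intro x hx
    obtain ⟨i, hi⟩ := exists_ivOf hx
    exact ⟨_, i, hi, rfl⟩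
  · rintro χ c0 hc0 ⟨i0, rfl, rfl⟩ L hL h1 h2 h3
    have hne : ∀ i ≤ v, (L i).1 < (L i).2 := fun i hi => hS _ (hL i hi).1
    have hch : ∀ i j, i < j → j ≤ v → (L i).2 ≤ (L j).1 := fun i j hij hj =>
      chain_le hne h2 hij hj
    have hI : ∀ i : Fin (v + 1), ∃ n, ivOf S n = L i ∧ c n = c i0 := fun i =>
      (hL i (by omega)).2
    choose n hn1 hn2 using hI
    have hl : ∀ i ≤ v, (ivOf S i0).1 < (L i).2 := by
      intro i hi
      rcases Nat.eq_zero_or_pos i with rfl | hi0
      · exact h1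
      · exact h1.trans_le ((hch 0 i hi0 hi).trans (hne i hi).le)
    have hr : ∀ i ≤ v, (L i).1 < (ivOf S i0).2 := by
      intro i hi
      rcases hi.lt_or_eq with hi' | rfl
      · exact ((hne i hi).le.trans (hch i v hi' le_rfl)).trans_lt h3
      · exact h3
    have hne0 : ∀ i, i0 ≠ n i := by
      intro i e
      have e1 := hn1 i
      rw [← e] at e1
      rcases Nat.eq_zero_or_pos i with h0 | h0
      · have := hch i v (by omega) le_rfl
        rw [← e1] at this
        exact absurd h3 (not_lt.2 this)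
      · have := hch 0 i h0 (by omega)
        rw [← e1] at this
        exact absurd h1 (not_lt.2 this)
    have hadj : ∀ i, (graphOf (adjOf S)).Adj i0 (n i) := by
      intro i
      rw [adj_iff, hn1]
      exact ⟨hne0 i, hl i (by omega), hr i (by omega)⟩
    have hnadj : ∀ i j, ¬ (graphOf (adjOf S)).Adj (n i) (n j) := by
      intro i j
      rw [adj_iff, hn1, hn1]
      rintro ⟨h4, h5, h6⟩
      rcases lt_trichotomy (i : ℕ) j with h | h | h
      · exact absurd h6 (not_lt.2 (hch i j h (by omega)))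
      · exact h4 (by rw [Fin.ext h])
      · exact absurd h5 (not_lt.2 (hch j i h (by omega)))
    have hinj : Function.Injective n := by
      intro i j e
      have e1 := hn1 i
      rw [e, hn1] at e1
      rcases lt_trichotomy (i : ℕ) j with h | h | h
      · have := hch i j h (by omega)
        rw [e1] at this
        exact absurd (hne i (by omega)) (not_lt.2 this)
      · exact Fin.ext h
      · have := hch j i h (by omega)
        rw [← e1] at this
        exact absurd (hne j (by omega)) (not_lt.2 this)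
    have := hc (c i0) (v + 1) ⟨⟨⟨Sum.elim (fun _ => ⟨i0, rfl⟩) (fun i => ⟨n i, hn2 i⟩), ?_⟩, ?_⟩⟩
    · omega
    · rintro (a | a) (b | b) e
      · rw [Subsingleton.elim a b]
      · exact absurd (congrArg Subtype.val e) (hne0 b)
      · exact absurd (congrArg Subtype.val e).symm (hne0 a)
      · rw [hinj (congrArg Subtype.val e)]
    · rintro (a | a) (b | b)
      · simp
      · simpa using hadj b
      · simpa using (hadj a).symm
      · simpa using hnadj a b

theorem hasPartition_of_colourable {k v : ℕ} {S : List Iv} (hS : NE S)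
    (h : Colourable k v S) : HasPartition k v (graphOf (adjOf S)) := by
  classical
  obtain ⟨col, h⟩ := h
  refine ⟨fun i => col (ivOf S i), fun χ m ⟨e⟩ => ?_⟩
  by_contra hm
  push Not at hm
  let c0 := (e (Sum.inl 0))
  let n : Fin m → Fin (adjOf S).length := fun i => (e (Sum.inr i)).1
  have hcol : ∀ i, col (ivOf S (n i)) = col (ivOf S c0.1) := fun i =>
    (e (Sum.inr i)).2.trans c0.2.symm
  have hadj : ∀ i, (graphOf (adjOf S)).Adj c0.1 (n i) := by
    intro i
    have : (completeBipartiteGraph (Fin 1) (Fin m)).Adj (Sum.inl 0) (Sum.inr i) := by simp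
    exact e.map_rel_iff.2 this
  have hnadj : ∀ i j, ¬ (graphOf (adjOf S)).Adj (n i) (n j) := by
    intro i j hij
    have : (completeBipartiteGraph (Fin 1) (Fin m)).Adj (Sum.inr i) (Sum.inr j) :=
      e.map_rel_iff.1 hij
    simp at this
  have hinj : Function.Injective n := by
    intro i j hij
    have := e.injective (Subtype.ext hij)
    simpa using this
  let σ := Tuple.sort (fun i => (ivOf S (n i)).1)
  have hσ : Monotone ((fun i => (ivOf S (n i)).1) ∘ σ) := Tuple.monotone_sort _
  let f : ℕ → Fin m := fun i => σ ⟨min i v, by omega⟩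
  refine h _ (ivOf_mem S c0.1) (fun i => ivOf S (n (f i)))
    (fun i _ => ⟨ivOf_mem _ _, hcol _⟩) ((adj_iff _ _ _).1 (hadj _)).2.1 ?_
    ((adj_iff _ _ _).1 (hadj _)).2.2
  intro i hi
  have hne : n (f i) ≠ n (f (i + 1)) := by
    intro e'
    have := σ.injective (hinj e')
    simp only [Fin.mk.injEq] at this
    omega
  have hle : (ivOf S (n (f i))).1 ≤ (ivOf S (n (f (i + 1)))).1 :=
    hσ (show (⟨min i v, by omega⟩ : Fin m) ≤ ⟨min (i + 1) v, by omega⟩ by
      simp only [Fin.mk_le_mk]; omega)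
  by_contra hlt
  exact hnadj _ _ ((adj_iff _ _ _).2
    ⟨hne, hle.trans_lt (hS _ (ivOf_mem _ _)), not_le.1 hlt⟩)

end Pool.Agent.Lib.MP_da95b5_lc
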