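import Pool.Agent.Lib.MP_da95b5_lc.Block
import Pool.Agent.Shared.PolyTime.Extra
import Pool.Agent.Shared.PolyTime.BaseProblems

/-!
The interval family attached to a 3-CNF formula.
-/

namespace Pool.Agent.Lib.MP_da95b5_lc

open Pool.Agent.Shared.PolyTime N68a2faeb

/-- Template of a long interval. -/
structure LT where
  sl : ℕ
  kl : ℕ
  ll : ℕ
  sr : ℕ
  kr : ℕ
  lr : ℕ
  cc : ℕ

/-- Template of a chain of `w` consecutive intervals. -/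
structure CT where
  s : ℕ
  kl : ℕ
  ll : ℕ
  kr : ℕ
  lr : ℕ
  X : Bool
  ks : ℕ
  σ : ℕ
  cc : ℕ

def ivL (w a : ℕ) (t : LT) : Iv := (mk (t.sl * w) t.kl a t.ll, mk (t.sr * w) t.kr a t.lr)

def cpos (w a : ℕ) (t : CT) (i : ℕ) : Pos :=
  if i = 0 then mk (t.s * w) t.kl a t.ll
  else if i = w then mk ((t.s + 1) * w) t.kr a t.lr else mk (t.s * w + i) t.ks a t.σ

def ivC (w a : ℕ) (t : CT) (i : ℕ) : Iv := (cpos w a t i, cpos w a t (i + 1))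

def gad (w : ℕ) (Ls : List LT) (Cs : List CT) (a : ℕ) : List Iv :=
  Ls.flatMap (fun t => [ivL w a t]) ++
    Cs.flatMap (fun t => (List.range w).flatMap (fun i => [ivC w a t i]))

def tJR0 : LT := ⟨2, 9, 0, 3, 9, 1, 0⟩
def tJB0 : LT := ⟨2, 3, 0, 3, 3, 1, 1⟩
def tc0R : LT := ⟨3, 9, 0, 4, 7, 9, 0⟩
def tc0B : LT := ⟨3, 3, 0, 4, 7, 3, 1⟩
def tJ1b : LT := ⟨3, 3, 3, 4, 7, 7, 1⟩
def tu : LT := ⟨4, 7, 0, 5, 7, 6, 2⟩
def tk2 : LT := ⟨4, 7, 2, 5, 7, 2, 0⟩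
def tcB : LT := ⟨4, 7, 6, 5, 7, 8, 1⟩
def tz : LT := ⟨5, 7, 1, 6, 7, 2, 3⟩
def tcR : LT := ⟨5, 7, 5, 6, 7, 5, 0⟩
def taN : LT := ⟨6, 7, 1, 7, 5, 1, 2⟩
def taP : LT := ⟨6, 7, 4, 7, 5, 4, 3⟩
def tgN : LT := ⟨7, 5, 0, 8, 7, 2, 1⟩
def tgP : LT := ⟨7, 5, 3, 8, 7, 5, 1⟩
def VL : List LT := [tJR0, tJB0, tc0R, tc0B, tJ1b, tu, tk2, tcB, tz, tcR, taN, taP, tgN, tgP]
def tm0R : CT := ⟨3, 9, 2, 7, 4, true, 9, 1, 0⟩
def tm0B : CT := ⟨3, 3, 2, 7, 1, false, 3, 1, 1⟩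
def tmu : CT := ⟨4, 7, 5, 7, 0, false, 3, 1, 1⟩
def tmB : CT := ⟨4, 7, 8, 7, 3, false, 3, 2, 1⟩
def tmpR : CT := ⟨5, 7, 4, 7, 0, true, 9, 1, 0⟩
def tmR : CT := ⟨5, 7, 7, 7, 3, true, 9, 2, 0⟩
def tmN : CT := ⟨7, 5, 2, 7, 0, false, 5, 1, 1⟩
def tmP : CT := ⟨7, 5, 5, 7, 3, false, 5, 2, 1⟩
def VC : List CT := [tm0R, tm0B, tmu, tmB, tmpR, tmR, tmN, tmP]
def tJ5 : LT := ⟨8, 9, 0, 9, 7, 10, 0⟩
def tJ5p : LT := ⟨8, 3, 0, 9, 3, 1, 1⟩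
def tg1 : LT := ⟨9, 7, 0, 10, 7, 2, 0⟩
def tg2 : LT := ⟨9, 7, 3, 10, 7, 6, 0⟩
def tg3 : LT := ⟨9, 7, 6, 10, 7, 9, 0⟩
def tg0 : LT := ⟨9, 7, 9, 10, 7, 15, 0⟩
def tJ7a : LT := ⟨9, 3, 0, 10, 7, 3, 1⟩
def tg0p : LT := ⟨9, 3, 0, 10, 7, 12, 1⟩
def ty1 : LT := ⟨10, 7, 1, 11, 7, 2, 4⟩
def ty3 : LT := ⟨10, 7, 8, 11, 7, 6, 6⟩
def tk8 : LT := ⟨10, 7, 11, 11, 7, 3, 0⟩
def tw : LT := ⟨11, 7, 1, 12, 9, 2, 7⟩
def tI : LT := ⟨12, 9, 1, 13, 2, 0, 0⟩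
def CL : List LT := [tJ5, tJ5p, tg1, tg2, tg3, tg0, tJ7a, tg0p, ty1, ty3, tk8, tw, tI]
def tm1 : CT := ⟨9, 7, 2, 7, 0, true, 9, 1, 0⟩
def tm2 : CT := ⟨9, 7, 5, 7, 4, true, 9, 2, 0⟩
def tm3 : CT := ⟨9, 7, 8, 7, 7, true, 9, 3, 0⟩
def tm0 : CT := ⟨9, 7, 11, 7, 13, true, 9, 4, 0⟩
def tm0p : CT := ⟨9, 3, 2, 7, 10, false, 3, 3, 1⟩
def ty2 : CT := ⟨10, 7, 5, 7, 0, false, 3, 1, 5⟩
def tf7 : CT := ⟨10, 7, 14, 7, 4, false, 3, 3, 1⟩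
def tw3 : CT := ⟨11, 7, 5, 9, 0, true, 9, 3, 8⟩
def CC : List CT := [tm1, tm2, tm3, tm0, tm0p, ty2, tf7, tw3]
def tJs : LT := ⟨7, 4, 0, 8, 4, 1, 1⟩
def tcs : LT := ⟨8, 4, 0, 9, 8, 0, 1⟩
def SL : List LT := [tJs, tcs]
def tms : CT := ⟨8, 4, 2, 6, 0, false, 4, 1, 1⟩
def SC : List CT := [tms]

def ivX (w : ℕ) (x : Lit ℕ) (c j : ℕ) : Iv :=
  (mk (8 * w) 7 x.1 (bif x.2 then 1 else 4), mk (9 * w) 7 c (3 * j + 1))

def kcR (w t : ℕ) : Iv := (mk t 0 0 0, mk (t + w) 6 0 0)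
def ke (t : ℕ) : Iv := (mk t 0 0 0, mk (t + 1) 0 0 1)
def klk (t i : ℕ) : Iv := (mk (t + i) 0 i 1, mk (t + (i + 1)) 0 (i + 1) 1)
def kcB (w t : ℕ) : Iv := (mk (max (t + 2) (w + 1)) 2 (t + 2) 0, mk (t + 2 + w) 1 0 0)
def kl (w t : ℕ) : Iv := (mk (max t (w + 1)) 2 t 2, mk (max (t + 1) (w + 1)) 2 (t + 1) 1)
def km (w t : ℕ) : Iv := (mk (t + (w + 1)) 2 (t + (w + 1)) 2, mk (t + (w + 1)) 8 0 0)

def ctrl (w : ℕ) : List Iv :=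
  (List.range (12 * w + 1)).flatMap fun t =>
    [kcR w t, ke t, kcB w t, kl w t, km w t] ++ (List.range w).map (klk t)

def clauseGad (w : ℕ) (c : Clause3 ℕ) : List Iv :=
  gad w VL VC c.1.1 ++ gad w VL VC c.2.1.1 ++ gad w VL VC c.2.2.1 ++ gad w CL CC (numberOf c) ++
    [ivX w c.1 (numberOf c) 0, ivX w c.2.1 (numberOf c) 1, ivX w c.2.2 (numberOf c) 2]

def inst (w : ℕ) (φ : List (Clause3 ℕ)) : List Iv :=
  ctrl w ++ gad w SL SC 0 ++ φ.flatMap (clauseGad w)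

def theta (w : ℕ) : Pos := mk (w + 1) 1 0 0

theorem mem_gad {w : ℕ} {Ls : List LT} {Cs : List CT} {a : ℕ} {x : Iv} :
    x ∈ gad w Ls Cs a ↔ (∃ t ∈ Ls, x = ivL w a t) ∨ ∃ t ∈ Cs, ∃ i < w, x = ivC w a t i := by
  simp [gad]

theorem mem_ctrl {w : ℕ} {x : Iv} : x ∈ ctrl w ↔ ∃ t < 12 * w + 1,
    x = kcR w t ∨ x = ke t ∨ x = kcB w t ∨ x = kl w t ∨ x = km w t ∨ ∃ i < w, klk t i = x := by
  simp [ctrl]

theorem pb_cpos {w a : ℕ} {t : CT} {i : ℕ} : pb (cpos w a t i) = t.s * w + i := by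
  unfold cpos
  split_ifs with h1 h2
  · simp [h1]
  · simp [h2, add_mul]
  · simp

theorem lt_of_pb {x y : Pos} (h : pb x < pb y) : x < y := by
  obtain ⟨b, k, a, l, rfl⟩ := exists_mk x
  obtain ⟨b', k', a', l', rfl⟩ := exists_mk y
  exact mk_lt_mk.2 (Or.inl h)

theorem gad_ne {w : ℕ} (hw : 0 < w) {Ls : List LT} {Cs : List CT} (hL : ∀ t ∈ Ls, t.sl < t.sr ∧
    t.sl ≤ 12) (hC : ∀ t ∈ Cs, t.s ≤ 12) (a : ℕ) :
    ∀ x ∈ gad w Ls Cs a, x.1 < x.2 ∧ x.1 < mk (14 * w + 3) 0 0 0 := by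
  intro x hx
  rcases mem_gad.1 hx with ⟨t, ht, rfl⟩ | ⟨t, ht, i, hi, rfl⟩
  · have := Nat.mul_le_mul_right w (hL t ht).2
    exact ⟨lt_of_pb (Nat.mul_lt_mul_of_pos_right (hL t ht).1 hw),
      lt_of_pb (by simp only [ivL, pb_mk]; omega)⟩
  · have := Nat.mul_le_mul_right w (hC t ht)
    exact ⟨lt_of_pb (by simp [ivC, pb_cpos]), lt_of_pb (by simp only [ivC, pb_cpos, pb_mk]; omega)⟩

theorem inst_ne {w : ℕ} (hw : 0 < w) (φ : List (Clause3 ℕ)) :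
    ∀ x ∈ inst w φ, x.1 < x.2 ∧ x.1 < mk (14 * w + 3) 0 0 0 := by
  intro x hx
  simp only [inst, List.mem_append, List.mem_flatMap] at hx
  rcases hx with (hx | hx) | ⟨c, -, hx⟩
  · obtain ⟨t, ht, rfl | rfl | rfl | rfl | rfl | ⟨i, hi, rfl⟩⟩ := mem_ctrl.1 hx <;>
      simp only [kcR, ke, kcB, kl, km, klk, mk_lt_mk, true_and] <;> omega
  · exact gad_ne hw (by decide) (by decide) _ x hx
  · simp only [clauseGad, List.mem_append, List.mem_cons, List.not_mem_nil, or_false] at hx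
    rcases hx with (((hx | hx) | hx) | hx) | rfl | rfl | rfl
    · exact gad_ne hw (by decide) (by decide) _ x hx
    · exact gad_ne hw (by decide) (by decide) _ x hx
    · exact gad_ne hw (by decide) (by decide) _ x hx
    · exact gad_ne hw (by decide) (by decide) _ x hx
    all_goals simp only [ivX, mk_lt_mk]; omega

section PT

variable {α : Type} [N487b59b3 α]

@[fun_prop] theorem pt_mk {b k a l : α → ℕ} (hb : IsPolyTime b) (hk : IsPolyTime k)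
    (ha : IsPolyTime a) (hl : IsPolyTime l) : IsPolyTime (fun x => mk (b x) (k x) (a x) (l x)) := by
  unfold mk
  fun_prop

theorem pt_cpos (w : ℕ) (t : CT) (i : ℕ) {a : α → ℕ} (ha : IsPolyTime a) :
    IsPolyTime (fun x => cpos w (a x) t i) := by
  unfold cpos
  split_ifs <;> fun_prop

@[fun_prop] theorem pt_gad (w : ℕ) (Ls : List LT) (Cs : List CT) {a : α → ℕ} (ha : IsPolyTime a) :
    IsPolyTime (fun x => gad w Ls Cs (a x)) := by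
  unfold gad
  refine IsPolyTime.append (isPolyTime_flatMap_const _ fun t => ?_)
    (isPolyTime_flatMap_const _ fun t => isPolyTime_flatMap_const _ fun i => ?_)
  · unfold ivL; fun_prop
  · have h1 := pt_cpos w t i ha
    have h2 := pt_cpos w t (i + 1) ha
    unfold ivC; fun_prop

theorem pt_inst (w : ℕ) : IsPolyTime (inst w) := by
  have := isPolyTime_numberOf (V := Clause3 ℕ)
  unfold inst clauseGad ivX
  fun_prop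

theorem pt_ext (v K : ℕ) (θ : Pos) : IsPolyTime (ext v K θ) := by
  unfold ext shIv sh pb pk pa pl
  fun_prop

end PT

end Pool.Agent.Lib.MP_da95b5_lc
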