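import Pool.Agent.Lib.MP_da95b5_lc.Inst

/-!
Soundness: a colouring gives a satisfying assignment.
-/

namespace Pool.Agent.Lib.MP_da95b5_lc

open Pool.Agent.Shared.PolyTime

section

variable {w : ℕ} {S : List Iv} {col : Iv → Bool}

def RZ (w : ℕ) (S : List Iv) (col : Iv → Bool) (t : ℕ) : Prop :=
  ∀ x ∈ S, x.1 < mk t 1 0 0 → (t ≤ w + 1 ∨ mk (t - 1) 8 0 0 ≤ x.1) → col x = true

def BZ (S : List Iv) (col : Iv → Bool) (t : ℕ) : Prop :=
  ∀ x ∈ S, mk t 1 0 0 ≤ x.1 → x.1 < mk t 6 0 0 → col x = false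

theorem zones (hw : 0 < w) (hg : Good (w + 1) S col) (hθ : ∀ x ∈ S, x.1 < theta w → col x = true)
    (hc : ∀ x ∈ ctrl w, x ∈ S) :
    ∀ t ≤ 12 * w + 1, RZ w S col t ∧ (w + 1 ≤ t → BZ S col t) := by
  intro t
  induction t using Nat.strong_induction_on with
  | _ t ih =>
  intro ht
  have hred : ∀ x ∈ S, ∀ b a l, b < t → x.1 = mk b 0 a l → col x = true := by
    intro x hx b a l hb e
    refine (ih b hb (by omega)).1 x hx ?_ ?_
    · rw [e, mk_lt_mk]; omega
    · rw [e, mk_le_mk]; omega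
  have hblue : ∀ x ∈ S, ∀ b a l, b < t → w + 1 ≤ b → x.1 = mk b 2 a l → col x = false := by
    intro x hx b a l hb hb' e
    refine (ih b hb (by omega)).2 hb' x hx ?_ ?_
    · rw [e, mk_le_mk]; omega
    · rw [e, mk_lt_mk]; omega
  constructor
  · intro x hx h1 h2
    by_cases htw : t ≤ w + 1
    · refine hθ x hx (h1.trans_le ?_)
      rw [theta, mk_le_mk]; omega
    obtain ⟨n, rfl⟩ : ∃ n, t = n + 2 + w := ⟨t - (2 + w), by omega⟩
    have m1 : kcB w n ∈ S := hc _ (mem_ctrl.2 ⟨n, by omega, by simp⟩)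
    have m2 : ∀ j < n + 1 + w, kl w j ∈ S := fun j hj => hc _ (mem_ctrl.2 ⟨j, by omega, by simp⟩)
    have m3 : km w n ∈ S := hc _ (mem_ctrl.2 ⟨n, by omega, by simp⟩)
    have c1 : col (kcB w n) = false := hblue _ m1 _ _ _ (by omega) (by omega) rfl
    have c2 : ∀ j < n + 1 + w, col (kl w j) = false := fun j hj =>
      hblue _ (m2 j hj) _ _ _ (by omega) (by omega) rfl
    have c3 : col (km w n) = false := hblue _ m3 _ _ _ (by omega) (by omega) rfl
    have := hg.force (fun i => mk (max (n + 2 + i) (w + 1)) 2 (n + 2 + i) 2)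
      (fun i => if i = w then mk (n + (w + 1)) 8 0 0
        else mk (max (n + 2 + i) (w + 1)) 2 (n + 2 + i) 1) m1 (m2 (n + 1) (by omega)) hx
      (by rw [c1, c2 _ (by omega)]) ?_ ?_ ?_ ?_ ?_ h1 hw
    · simpa [c1] using this
    · intro i hi
      by_cases h : i + 1 = w
      · have e : (mk (max (n + 2 + i) (w + 1)) 2 (n + 2 + i) 2, mk (n + (w + 1)) 8 0 0) =
            km w n := by
          rw [km, show max (n + 2 + i) (w + 1) = n + (w + 1) by omega,
            show n + 2 + i = n + (w + 1) by omega]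
        simp only [h, if_true, e, m3, c3, c1, and_self]
      · simp only [h, if_false, c1]
        exact ⟨m2 (n + 2 + i) (by omega), c2 (n + 2 + i) (by omega)⟩
    · intro i _ hi
      simp only [hi.ne, if_false, mk_le_mk, true_and]; omega
    · simp only [kcB, kl, mk_lt_mk, true_and]; omega
    · simp only [kl, mk_le_mk, true_and]; omega
    · simp only [if_true]
      rcases h2 with h2 | h2
      · omega
      · rwa [show n + 2 + w - 1 = n + (w + 1) by omega] at h2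
  · intro htw x hx h1 h2
    obtain ⟨n, rfl⟩ : ∃ n, t = n + 1 + w := ⟨t - (1 + w), by omega⟩
    have m1 : kcR w (n + 1) ∈ S := hc _ (mem_ctrl.2 ⟨n + 1, by omega, by simp⟩)
    have m2 : ke n ∈ S := hc _ (mem_ctrl.2 ⟨n, by omega, by simp⟩)
    have m3 : ∀ i < w, klk (n + 1) i ∈ S := fun i hi =>
      hc _ (mem_ctrl.2 ⟨n + 1, by omega, Or.inr (Or.inr (Or.inr (Or.inr (Or.inr ⟨i, hi, rfl⟩))))⟩)
    have c1 : col (kcR w (n + 1)) = true := hred _ m1 _ _ _ (by omega) rfl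
    have c2 : col (ke n) = true := hred _ m2 _ _ _ (by omega) rfl
    have c3 : ∀ i < w, col (klk (n + 1) i) = true := fun i hi =>
      hred _ (m3 i hi) _ _ _ (by omega) rfl
    have := hg.force (fun i => mk (n + 1 + i) 0 i 1) (fun i => mk (n + 1 + i) 0 i 1) m1 m2 hx
      (by rw [c1, c2]) (fun i hi => ⟨m3 i hi, by rw [c1]; exact c3 i hi⟩) (fun _ _ _ => le_rfl)
      (by simp [kcR, ke, mk_lt_mk]) le_rfl (le_trans (by simp [mk_le_mk]) h1) h2 hw
    simpa [c1] using this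

/-- The hypotheses shared by all gadgets. -/
structure Ctx (w : ℕ) (S : List Iv) (col : Iv → Bool) : Prop where
  intro ::
  hw : 0 < w
  good : Good (w + 1) S col
  red : ∀ x ∈ S, ∀ b a l, x.1 = mk b 9 a l → b ≤ 12 * w → col x = true
  blue : ∀ x ∈ S, ∀ b k a l, x.1 = mk b k a l → w + 1 ≤ b → b ≤ 12 * w → 1 ≤ k → k ≤ 5 →
    col x = false

theorem ctx_of (hw : 0 < w) (hg : Good (w + 1) S col)
    (hθ : ∀ x ∈ S, x.1 < theta w → col x = true) (hc : ∀ x ∈ ctrl w, x ∈ S) : Ctx w S col := by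
  have hz := zones hw hg hθ hc
  refine ⟨hw, hg, fun x hx b a l e hb => (hz (b + 1) (by omega)).1 x hx ?_ ?_,
    fun x hx b k a l e hb hb' hk hk' => (hz b (by omega)).2 hb x hx ?_ ?_⟩
  · rw [e, mk_lt_mk]; omega
  · rw [e, mk_le_mk]; omega
  · rw [e, mk_le_mk]; omega
  · rw [e, mk_lt_mk]; omega

theorem Ctx.redL (h : Ctx w S col) {a : ℕ} {t : LT} (ht : ivL w a t ∈ S) (h1 : t.kl = 9)
    (h2 : t.sl ≤ 12) : col (ivL w a t) = true :=
  h.red _ ht _ a _ (by rw [ivL, h1]) (Nat.mul_le_mul_right _ h2)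

theorem Ctx.blueL (h : Ctx w S col) {a : ℕ} {t : LT} (ht : ivL w a t ∈ S) (h1 : 1 ≤ t.kl)
    (h1' : t.kl ≤ 5) (h2 : 2 ≤ t.sl) (h3 : t.sl ≤ 12) : col (ivL w a t) = false :=
  h.blue _ ht _ _ a _ rfl (by have := h.hw; nlinarith) (Nat.mul_le_mul_right _ h3) h1 h1'

theorem Ctx.redC (h : Ctx w S col) {a : ℕ} {t : CT} (ht : ivC w a t 0 ∈ S) (h1 : t.kl = 9)
    (h2 : t.s ≤ 12) : col (ivC w a t 0) = true :=
  h.red _ ht _ a t.ll (by simp [ivC, cpos, h1]) (Nat.mul_le_mul_right _ h2)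

theorem Ctx.blueC (h : Ctx w S col) {a : ℕ} {t : CT} (ht : ivC w a t 0 ∈ S) (h1 : 1 ≤ t.kl)
    (h1' : t.kl ≤ 5) (h2 : 2 ≤ t.s) (h3 : t.s ≤ 12) : col (ivC w a t 0) = false :=
  h.blue _ ht (t.s * w) t.kl a t.ll (by simp [ivC, cpos]) (by have := h.hw; nlinarith)
    (Nat.mul_le_mul_right _ h3) h1 h1'

def okC (t : CT) : Bool :=
  decide (2 ≤ t.s) && decide (t.s ≤ 11) &&
    (if t.X then decide (t.ks = 9) else decide (1 ≤ t.ks) && decide (t.ks ≤ 5))

theorem Ctx.fire (h : Ctx w S col) {a : ℕ} {t : CT} (hm : ∀ i < w, ivC w a t i ∈ S)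
    (ht : okC t = true) {c J I : Iv} (hc : c ∈ S) (hJ : J ∈ S) (hI : I ∈ S) (c1 : col c = t.X)
    (c2 : col J = t.X) (c3 : col (ivC w a t 0) = t.X) (h1 : c.1 < J.2)
    (h2 : J.2 ≤ mk (t.s * w) t.kl a t.ll) (h3 : mk ((t.s + 1) * w) t.kr a t.lr ≤ I.1)
    (h4 : I.1 < c.2) : col I = !t.X := by
  have hw := h.hw
  have := h.good.force (cpos w a t) (cpos w a t) hc hJ hI (by rw [c1, c2]) ?_
    (fun _ _ _ => le_rfl) h1 (by simpa [cpos] using h2) (by simpa [cpos, hw.ne'] using h3) h4 hw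
  · rw [c1] at this
    exact Bool.eq_not_iff.2 this
  · intro i hi
    refine ⟨hm i hi, ?_⟩
    rw [c1]
    rcases Nat.eq_zero_or_pos i with rfl | hi0
    · exact c3
    · simp only [okC, Bool.and_eq_true, decide_eq_true_eq] at ht
      have e : (ivC w a t i).1 = mk (t.s * w + i) t.ks a t.σ := by
        simp [ivC, cpos, hi0.ne', hi.ne]
      have b1 := Nat.mul_le_mul_right w ht.1.1
      have b2 := Nat.mul_le_mul_right w ht.1.2
      cases hX : t.X
      · simp only [hX, Bool.false_eq_true, if_false, Bool.and_eq_true, decide_eq_true_eq] at ht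
        exact h.blue _ (hm i hi) _ _ _ _ e (by omega) (by omega) ht.2.1 ht.2.2
      · simp only [hX, if_true, decide_eq_true_eq] at ht
        rw [ht.2] at e
        exact h.red _ (hm i hi) _ _ _ e (by omega)

def okG (c : LT) (t : CT) (lj l : ℕ) : Bool :=
  okC t && decide (c.sl = t.s) && decide (c.kl = t.kl) && decide (c.ll < lj) &&
    decide (lj ≤ t.ll) && decide (c.sr = t.s + 1) && decide (c.kr = t.kr) && decide (t.lr ≤ l) &&
    decide (l < c.lr)

theorem Ctx.gate (h : Ctx w S col) {a : ℕ} (c : LT) (t : CT) (lj l : ℕ)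
    (hm : ∀ i < w, ivC w a t i ∈ S) (hc : ivL w a c ∈ S) {J I : Iv} (hJ : J ∈ S) (hI : I ∈ S)
    (ht : okG c t lj l = true) (e1 : J.2 = mk (t.s * w) t.kl a lj)
    (e2 : I.1 = mk ((t.s + 1) * w) t.kr a l) (c1 : col (ivL w a c) = t.X)
    (c2 : col J = t.X) (c3 : col (ivC w a t 0) = t.X) : col I = !t.X := by
  simp only [okG, Bool.and_eq_true, decide_eq_true_eq] at ht
  obtain ⟨⟨⟨⟨⟨⟨⟨⟨t1, t2⟩, t3⟩, t4⟩, t5⟩, t6⟩, t7⟩, t8⟩, t9⟩ := ht
  refine h.fire hm t1 hc hJ hI c1 c2 c3 ?_ ?_ ?_ ?_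
  · simp [ivL, e1, t2, t3, mk_lt_mk, t4]
  · simp [e1, mk_le_mk, t5]
  · simp [e2, mk_le_mk, t8]
  · simp [ivL, e2, t6, t7, mk_lt_mk, t9]

theorem Ctx.var (h : Ctx w S col) {a : ℕ} (hg : ∀ x ∈ gad w VL VC a, x ∈ S) (sg : Bool)
    (hu : col (ivL w a tu) ≠ sg) {x : Iv} (hx : x ∈ S)
    (e : x.1 = mk (8 * w) 7 a (bif sg then 1 else 4)) : col x = true := by
  have L : ∀ t ∈ VL, ivL w a t ∈ S := fun t ht => hg _ (mem_gad.2 (Or.inl ⟨t, ht, rfl⟩))
  have C : ∀ t ∈ VC, ∀ i < w, ivC w a t i ∈ S := fun t ht i hi =>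
    hg _ (mem_gad.2 (Or.inr ⟨t, ht, i, hi, rfl⟩))
  simp only [VL, VC, List.forall_mem_cons, List.not_mem_nil, false_imp_iff, implies_true,
    and_true] at L C
  obtain ⟨JR0, JB0, c0R, c0B, J1b, u, k2, cB, z, cR, aN, aP, gN, gP⟩ := L
  obtain ⟨m0R, m0B, mu, mB, mpR, mR, mN, mP⟩ := C
  have hw := h.hw
  have g0R : ∀ l, 4 ≤ l → l < 9 → ∀ I ∈ S, I.1 = mk (4 * w) 7 a l → col I = false :=
    fun l h1 h2 I hI e => h.gate tc0R tm0R 1 l m0R c0R JR0 hI
      (by simp [okG, okC, tc0R, tm0R, h1, h2]) rfl e (h.redL c0R rfl (by decide))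
      (h.redL JR0 rfl (by decide)) (h.redC (m0R 0 hw) rfl (by decide))
  have xm0B := h.blueC (m0B 0 hw) (by decide) (by decide) (by decide) (by decide)
  have xk2 : col (ivL w a tk2) = true := h.gate tc0B tm0B 1 2 m0B c0B JB0 k2 (by decide) rfl rfl
    (h.blueL c0B (by decide) (by decide) (by decide) (by decide))
    (h.blueL JB0 (by decide) (by decide) (by decide) (by decide)) xm0B
  have xmu : col (ivC w a tmu 0) = false := g0R 5 (by omega) (by omega) _ (mu 0 hw) rfl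
  have xmB : col (ivC w a tmB 0) = false := g0R 8 (by omega) (by omega) _ (mB 0 hw) rfl
  have xcB : col (ivL w a tcB) = false := g0R 6 (by omega) (by omega) _ cB rfl
  have g1B : ∀ l, 3 ≤ l → l < 8 → ∀ I ∈ S, I.1 = mk (5 * w) 7 a l → col I = true :=
    fun l h1 h2 I hI e => h.gate tcB tmB 7 l mB cB J1b hI
      (by simp [okG, okC, tcB, tmB, h1, h2]) rfl e xcB
      (h.blueL J1b (by decide) (by decide) (by decide) (by decide)) xmB
  have xmpR : col (ivC w a tmpR 0) = true := g1B 4 (by omega) (by omega) _ (mpR 0 hw) rfl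
  have xmR : col (ivC w a tmR 0) = true := g1B 7 (by omega) (by omega) _ (mR 0 hw) rfl
  have xcR : col (ivL w a tcR) = true := g1B 5 (by omega) (by omega) _ cR rfl
  cases sg
  · have xu : col (ivL w a tu) = true := by simpa using hu
    have xaP : col (ivL w a taP) = false :=
      h.gate tcR tmR 6 4 mR cR u aP (by decide) rfl rfl xcR xu xmR
    exact h.gate tgP tmP 4 4 mP gP aP hx (by decide) rfl e
      (h.blueL gP (by decide) (by decide) (by decide) (by decide)) xaP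
      (h.blueC (mP 0 hw) (by decide) (by decide) (by decide) (by decide))
  · have xu : col (ivL w a tu) = false := by simpa using hu
    have hlast : ivC w a tm0B (w - 1) ∈ S := m0B _ (by omega)
    have elast : (ivC w a tm0B (w - 1)).2 = mk (4 * w) 7 a 1 := by
      simp [ivC, cpos, show w - 1 + 1 = w by omega, hw.ne', tm0B]
    have xlast : col (ivC w a tm0B (w - 1)) = false := by
      by_cases h1 : w - 1 = 0
      · rw [h1]; exact xm0B
      · exact h.blue _ hlast (3 * w + (w - 1)) 3 a 1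
          (by simp [ivC, cpos, h1, show w - 1 ≠ w by omega, tm0B]) (by omega) (by omega)
          (by omega) (by omega)
    have xz : col (ivL w a tz) = true :=
      h.gate tu tmu 1 1 mu u hlast z (by decide) elast rfl xu xlast xmu
    have xaN : col (ivL w a taN) = false :=
      h.gate tz tmpR 2 1 mpR z k2 aN (by decide) rfl rfl xz xk2 xmpR
    exact h.gate tgN tmN 1 1 mN gN aN hx (by decide) rfl e
      (h.blueL gN (by decide) (by decide) (by decide) (by decide)) xaN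
      (h.blueC (mN 0 hw) (by decide) (by decide) (by decide) (by decide))

theorem Ctx.star (h : Ctx w S col) (hg : ∀ x ∈ gad w SL SC 0, x ∈ S) {x : Iv} (hx : x ∈ S)
    {a l : ℕ} (e : x.1 = mk (9 * w) 7 a l) : col x = true := by
  have L : ∀ t ∈ SL, ivL w 0 t ∈ S := fun t ht => hg _ (mem_gad.2 (Or.inl ⟨t, ht, rfl⟩))
  have C : ∀ t ∈ SC, ∀ i < w, ivC w 0 t i ∈ S := fun t ht i hi =>
    hg _ (mem_gad.2 (Or.inr ⟨t, ht, i, hi, rfl⟩))
  simp only [SL, SC, List.forall_mem_cons, List.not_mem_nil, false_imp_iff, implies_true,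
    and_true] at L C
  exact h.fire C (by decide) L.2 L.1 hx
    (h.blueL L.2 (by decide) (by decide) (by decide) (by decide))
    (h.blueL L.1 (by decide) (by decide) (by decide) (by decide))
    (h.blueC (C 0 h.hw) (by decide) (by decide) (by decide) (by decide))
    (by simp [ivL, tcs, tJs, mk_lt_mk]) (by simp [ivL, tms, tJs, mk_le_mk])
    (by simp [e, tms, mk_le_mk]) (by simp [e, ivL, tcs, mk_lt_mk])

theorem Ctx.clause (h : Ctx w S col) (hs : ∀ x ∈ gad w SL SC 0, x ∈ S) {a : ℕ}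
    (hg : ∀ x ∈ gad w CL CC a, x ∈ S) {x1 x2 x3 : Iv} (m1' : x1 ∈ S) (m2' : x2 ∈ S) (m3' : x3 ∈ S)
    (e1 : x1.2 = mk (9 * w) 7 a 1) (e2 : x2.2 = mk (9 * w) 7 a 4) (e3 : x3.2 = mk (9 * w) 7 a 7)
    (r1 : col x1 = true) (r2 : col x2 = true) (r3 : col x3 = true) : False := by
  have L : ∀ t ∈ CL, ivL w a t ∈ S := fun t ht => hg _ (mem_gad.2 (Or.inl ⟨t, ht, rfl⟩))
  have C : ∀ t ∈ CC, ∀ i < w, ivC w a t i ∈ S := fun t ht i hi =>
    hg _ (mem_gad.2 (Or.inr ⟨t, ht, i, hi, rfl⟩))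
  simp only [CL, CC, List.forall_mem_cons, List.not_mem_nil, false_imp_iff, implies_true,
    and_true] at L C
  obtain ⟨J5, J5p, g1, g2, g3, g0, J7a, g0p, y1, y3, k8, w', I⟩ := L
  obtain ⟨m1, m2, m3, m0, m0p, y2, f7, w3⟩ := C
  have hw := h.hw
  have xy1 : col (ivL w a ty1) = false := h.gate tg1 tm1 1 1 m1 g1 m1' y1 (by decide) e1 rfl
    (h.star hs g1 rfl) r1 (h.star hs (m1 0 hw) rfl)
  have xy2 : col (ivC w a ty2 0) = false := h.gate tg2 tm2 4 5 m2 g2 m2' (y2 0 hw) (by decide) e2 rfl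
    (h.star hs g2 rfl) r2 (h.star hs (m2 0 hw) rfl)
  have xy3 : col (ivL w a ty3) = false := h.gate tg3 tm3 7 8 m3 g3 m3' y3 (by decide) e3 rfl
    (h.star hs g3 rfl) r3 (h.star hs (m3 0 hw) rfl)
  have xf7 : col (ivC w a tf7 0) = false := h.gate tg0 tm0 10 14 m0 g0 J5 (f7 0 hw) (by decide)
    rfl rfl (h.star hs g0 rfl) (h.redL J5 rfl (by decide)) (h.star hs (m0 0 hw) rfl)
  have xm0p := h.blueC (m0p 0 hw) (by decide) (by decide) (by decide) (by decide)
  have xg0p := h.blueL g0p (by decide) (by decide) (by decide) (by decide)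
  have xk8 : col (ivL w a tk8) = true := h.gate tg0p tm0p 1 11 m0p g0p J5p k8 (by decide) rfl rfl
    xg0p (h.blueL J5p (by decide) (by decide) (by decide) (by decide)) xm0p
  have xw : col (ivL w a tw) = true := h.gate ty1 ty2 3 1 y2 y1 J7a w' (by decide) rfl rfl xy1
    (h.blueL J7a (by decide) (by decide) (by decide) (by decide)) xy2
  have xw3 : col (ivC w a tw3 0) = true := h.gate ty3 tf7 12 5 f7 y3 g0p (w3 0 hw) (by decide)
    rfl rfl xy3 xg0p xf7
  have xI : col (ivL w a tI) = false := h.gate tw tw3 3 1 w3 w' k8 I (by decide) rfl rfl xw xk8 xw3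
  have := h.redL I rfl (by decide)
  rw [xI] at this
  exact absurd this (by simp)

end

theorem inst_sound {w : ℕ} (hw : 0 < w) {φ : List (Clause3 ℕ)} {col : Iv → Bool}
    (hg : Good (w + 1) (inst w φ) col) (hθ : ∀ x ∈ inst w φ, x.1 < theta w → col x = true) :
    Sat3 φ := by
  have h := ctx_of hw hg hθ (fun x hx => by simp [inst, hx])
  have hs : ∀ x ∈ gad w SL SC 0, x ∈ inst w φ := fun x hx => by simp [inst, hx]
  refine ⟨fun a => col (ivL w a tu), fun c hc => ?_⟩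
  have hcg : ∀ x ∈ clauseGad w c, x ∈ inst w φ := fun x hx => by
    simp only [inst, List.mem_append, List.mem_flatMap]
    exact Or.inr ⟨c, hc, hx⟩
  by_contra hn
  simp only [Clause3.Holds, not_or] at hn
  have m1 : ivX w c.1 (numberOf c) 0 ∈ inst w φ := hcg _ (by simp [clauseGad])
  have m2 : ivX w c.2.1 (numberOf c) 1 ∈ inst w φ := hcg _ (by simp [clauseGad])
  have m3 : ivX w c.2.2 (numberOf c) 2 ∈ inst w φ := hcg _ (by simp [clauseGad])
  exact h.clause hs (a := numberOf c) (fun x hx => hcg _ (by simp [clauseGad, hx])) m1 m2 m3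
    rfl rfl rfl
    (h.var (fun x hx => hcg _ (by simp [clauseGad, hx])) _ hn.1 m1 rfl)
    (h.var (fun x hx => hcg _ (by simp [clauseGad, hx])) _ hn.2.1 m2 rfl)
    (h.var (fun x hx => hcg _ (by simp [clauseGad, hx])) _ hn.2.2 m3 rfl)

end Pool.Agent.Lib.MP_da95b5_lc
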