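import Pool.Agent.Lib.MP_da95b5_lc.Complete
import Pool.Agent.Lib.MP_da95b5_lc.Sound
import Pool.Agent.Lib.MP_da95b5_lc.Graph

/-!
NP-hardness for all numbers of parts and all claw bounds.
-/

namespace Pool.Agent.Lib.MP_da95b5_lc

open Pool.Agent.Shared.PolyTime N68a2faeb

theorem base_iff {w : ℕ} (hw : 0 < w) (φ : List (Clause3 ℕ)) :
    Sat3 φ ↔ Colourable 2 (w + 1) (ext (w + 1) 1 (theta w) (inst w φ)) := by
  constructor
  · intro h
    obtain ⟨col, h1, h2⟩ := inst_complete hw h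
    refine ext_complete (by omega) (fun x hx => (inst_ne hw φ x hx).1)
      (fun x => if col x then 0 else 1) (h1.of_imp fun x _ y _ e => ?_) (fun x hx hθ => ?_)
    · revert e
      cases col x <;> cases col y <;> simp
    · simp [h2 x hx hθ]
  · intro h
    obtain ⟨col, h1, h2⟩ := ext_sound (K := 1) (by omega) h
    refine inst_sound hw (col := fun x => decide (col x ≠ Fin.last 1))
      (h1.of_imp fun x _ y _ e => ?_) (fun x hx hθ => by simpa using h2 x hx hθ)
    revert e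
    generalize col x = a
    generalize col y = b
    revert a b
    decide

theorem hard_iv {w : ℕ} (hw : 0 < w) (k : ℕ) :
    ∃ B, NPHardOn (fun S : List Iv => NE S ∧ ∀ x ∈ S, x.1 < mk B 0 0 0)
      (Colourable (k + 2) (w + 1)) := by
  induction k with
  | zero =>
    refine ⟨14 * w + 3 + 1, npHardOn_sat3.reduce
      (fun φ => ext (w + 1) 1 (theta w) (inst w φ)) ((pt_ext _ _ _).comp (pt_inst w))
      fun φ _ => ⟨⟨ext_ne fun x hx => (inst_ne hw φ x hx).1,
        ext_bound fun x hx => (inst_ne hw φ x hx).2⟩, base_iff hw φ⟩⟩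
  | succ k ih =>
    obtain ⟨B, hB⟩ := ih
    exact ⟨B + 1, hB.reduce (ext (w + 1) (k + 2) (mk B 0 0 0)) (pt_ext _ _ _)
      fun S hS => ⟨⟨ext_ne hS.1, ext_bound hS.2⟩,
        (ext_step (by omega) (by omega) hS.1 hS.2).symm⟩⟩

theorem pt_adjOf : IsPolyTime adjOf := by
  unfold adjOf
  fun_prop

theorem hard_graph {k v : ℕ} (hk : 2 ≤ k) (hv : 2 ≤ v) :
    NPHardOn (fun A : List (List ℕ) => IsIntervalGraph (graphOf A))
      (fun A => HasPartition k v (graphOf A)) := by
  obtain ⟨k, rfl⟩ : ∃ k', k = k' + 2 := ⟨k - 2, by omega⟩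
  obtain ⟨w, rfl⟩ : ∃ w, v = w + 1 := ⟨v - 1, by omega⟩
  obtain ⟨B, hB⟩ := hard_iv (w := w) (by omega) k
  exact hB.reduce adjOf pt_adjOf fun S hS => ⟨isIntervalGraph_adjOf hS.1,
    hasPartition_of_colourable hS.1, colourable_of_hasPartition hS.1 (by omega) (by omega)⟩

end Pool.Agent.Lib.MP_da95b5_lc
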